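import Mathlib

set_option autoImplicit false

namespace Pool.Agent.Results.MP_924390_co.BoundedPathwidthTrees

section Core

variable {α ι : Type*}

/-- `ok` condition at position `k`. -/
def OKat (I : ℕ → Finset ι) (ev : ℕ → ℕ → ι → (ℕ → α) → ℕ → α) (k : ℕ) (x : ℕ → α) : Prop :=
  ∀ u, 1 ≤ u → u ≤ k + 1 → ∀ e ∈ I u, ∃ i, i < u ∧ x (k - i) ≠ ev k u e x i

open Classical in
/-- The set of partial good sequences. -/
noncomputable def SS (L : ℕ → Finset α) (d : α) (I : ℕ → Finset ι)
    (ev : ℕ → ℕ → ι → (ℕ → α) → ℕ → α) : ℕ → Finset (ℕ → α)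
  | 0 => {fun _ => d}
  | n + 1 => ((SS L d I ev n ×ˢ L n).image (fun p => Function.update p.1 n p.2)).filter
      (fun x => OKat I ev n x)

variable (L : ℕ → Finset α) (d : α) (I : ℕ → Finset ι) (ev : ℕ → ℕ → ι → (ℕ → α) → ℕ → α)

lemma SS_default {n : ℕ} {x : ℕ → α} (hx : x ∈ SS L d I ev n) : ∀ k, n ≤ k → x k = d := by
  induction n generalizing x with
  | zero =>
    intro k _
    simp only [SS, Finset.mem_singleton] at hx
    rw [hx]
  | succ n ih =>
    intro k hk
    simp only [SS, Finset.mem_filter, Finset.mem_image, Finset.mem_product, Prod.exists] at hx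
    obtain ⟨⟨y, a, ⟨hy, ha⟩, rfl⟩, _⟩ := hx
    rw [Function.update_of_ne (by omega)]
    exact ih hy k (by omega)

lemma SS_trunc {n : ℕ} {x : ℕ → α} (hx : x ∈ SS L d I ev n) (k : ℕ) (hk : k ≤ n) :
    (fun i => if i < k then x i else d) ∈ SS L d I ev k := by
  induction n generalizing x with
  | zero =>
    have : k = 0 := by omega
    subst this
    simp [SS]
  | succ n ih =>
    rcases Nat.lt_or_ge n k with h | h
    · have hk' : k = n + 1 := by omega
      subst hk'
      have : (fun i => if i < n + 1 then x i else d) = x := by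
        funext i
        by_cases hi : i < n + 1
        · simp [hi]
        · simp only [hi, if_false]
          exact (SS_default L d I ev hx i (by omega)).symm
      rw [this]
      exact hx
    · simp only [SS, Finset.mem_filter, Finset.mem_image, Finset.mem_product, Prod.exists] at hx
      obtain ⟨⟨y, a, ⟨hy, ha⟩, rfl⟩, _⟩ := hx
      have := ih hy h
      convert this using 2 with i
      by_cases hi : i < k
      · simp only [hi, if_true]
        rw [Function.update_of_ne (by omega)]
      · simp [hi]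

lemma OKat_congr (hloc : ∀ k u e x y, 1 ≤ u → u ≤ k + 1 → (∀ i, i < k + 1 - u → x i = y i) →
      ∀ i, i < u → ev k u e x i = ev k u e y i) {k : ℕ} {x y : ℕ → α}
    (h : ∀ i, i ≤ k → x i = y i) (hx : OKat I ev k x) : OKat I ev k y := by
  intro u hu1 hu2 e he
  obtain ⟨i, hi, hne⟩ := hx u hu1 hu2 e he
  refine ⟨i, hi, ?_⟩
  rw [← h (k - i) (by omega), ← hloc k u e x y hu1 hu2 (fun j hj => h j (by omega)) i hi]
  exact hne

lemma SS_ok (hloc : ∀ k u e x y, 1 ≤ u → u ≤ k + 1 → (∀ i, i < k + 1 - u → x i = y i) →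
      ∀ i, i < u → ev k u e x i = ev k u e y i) {n : ℕ} {x : ℕ → α} (hx : x ∈ SS L d I ev n) :
    ∀ k, k < n → x k ∈ L k ∧ OKat I ev k x := by
  induction n generalizing x with
  | zero => intro k hk; omega
  | succ n ih =>
    intro k hk
    simp only [SS, Finset.mem_filter, Finset.mem_image, Finset.mem_product, Prod.exists] at hx
    obtain ⟨⟨y, a, ⟨hy, ha⟩, rfl⟩, hok⟩ := hx
    rcases Nat.lt_or_ge k n with h | h
    · obtain ⟨h1, h2⟩ := ih hy k h
      refine ⟨?_, ?_⟩
      · rw [Function.update_of_ne (by omega)]; exact h1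
      · refine OKat_congr I ev hloc ?_ h2
        intro i hi
        rw [Function.update_of_ne (by omega)]
    · have : k = n := by omega
      subst this
      refine ⟨?_, hok⟩
      rw [Function.update_self]; exact ha

lemma SS_count (hloc : ∀ k u e x y, 1 ≤ u → u ≤ k + 1 → (∀ i, i < k + 1 - u → x i = y i) →
      ∀ i, i < u → ev k u e x i = ev k u e y i) (N0 : ℕ)
    (hI : ∀ u, 1 ≤ u → (I u).card ≤ N0 * u) (n : ℕ) :
    (SS L d I ev n).card * (L n).card ≤ (SS L d I ev (n + 1)).card +
      ∑ j ∈ Finset.range (n + 1), N0 * ((n + 1 - j) * (SS L d I ev j).card) := by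
  classical
  set Y := (SS L d I ev n ×ˢ L n).image (fun p => Function.update p.1 n p.2) with hY
  have hYcard : Y.card = (SS L d I ev n).card * (L n).card := by
    rw [hY, Finset.card_image_of_injOn, Finset.card_product]
    rintro ⟨x, a⟩ hxa ⟨y, b⟩ hyb heq
    simp only [Finset.coe_product, Set.mem_prod, Finset.mem_coe] at hxa hyb
    simp only at heq
    have h1 : a = b := by
      have := congrFun heq n
      simpa using this
    have h2 : x = y := by
      funext i
      by_cases hi : i = n
      · subst hi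
        rw [SS_default L d I ev hxa.1 _ le_rfl, SS_default L d I ev hyb.1 _ le_rfl]
      · have := congrFun heq i
        rwa [Function.update_of_ne hi, Function.update_of_ne hi] at this
    rw [h1, h2]
  rw [← hYcard]
  set Bad := fun (j : ℕ) (e : ι) => Y.filter
    (fun x => ∀ i, i < n + 1 - j → x (n - i) = ev n (n + 1 - j) e x i) with hBad
  have hsub : Y ⊆ SS L d I ev (n + 1) ∪
      (Finset.range (n + 1)).biUnion (fun j => (I (n + 1 - j)).biUnion (fun e => Bad j e)) := by
    intro x hx
    by_cases hok : OKat I ev n x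
    · apply Finset.mem_union_left
      simp only [SS, Finset.mem_filter]
      exact ⟨hx, hok⟩
    · apply Finset.mem_union_right
      unfold OKat at hok
      push Not at hok
      obtain ⟨u, hu1, hu2, e, he, hall⟩ := hok
      simp only [Finset.mem_biUnion, Finset.mem_range]
      have e1 : n + 1 - (n + 1 - u) = u := by omega
      refine ⟨n + 1 - u, by omega, e, by rw [e1]; exact he, ?_⟩
      simp only [hBad, Finset.mem_filter]
      refine ⟨hx, ?_⟩
      rw [e1]
      exact hall
  have hBadcard : ∀ j, j < n + 1 → ∀ e, (Bad j e).card ≤ (SS L d I ev j).card := by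
    intro j hj e
    apply Finset.card_le_card_of_injOn (fun x => fun i => if i < j then x i else d)
    · intro x hx
      simp only [hBad, Finset.coe_filter, Set.mem_ofPred_eq, hY, Finset.mem_image,
        Finset.mem_product, Prod.exists] at hx
      obtain ⟨⟨y, a, ⟨hy, ha⟩, rfl⟩, _⟩ := hx
      have := SS_trunc L d I ev hy j (by omega)
      simp only [Finset.mem_coe]
      convert this using 2 with i
      by_cases hi : i < j
      · simp only [hi, if_true]
        rw [Function.update_of_ne (by omega)]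
      · simp [hi]
    · intro x hx y hy heq
      simp only [hBad, Finset.coe_filter, Set.mem_ofPred_eq] at hx hy
      simp only at heq
      have hlow : ∀ i, i < j → x i = y i := by
        intro i hi
        have := congrFun heq i
        simpa [hi] using this
      have hxy := hloc n (n + 1 - j) e x y (by omega) (by omega)
        (fun i hi => hlow i (by omega))
      have hd : ∀ z, z ∈ Y → ∀ k, n < k → z k = d := by
        intro z hz k hk
        simp only [hY, Finset.mem_image, Finset.mem_product, Prod.exists] at hz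
        obtain ⟨w, a, ⟨hw, ha⟩, rfl⟩ := hz
        rw [Function.update_of_ne (by omega)]
        exact SS_default L d I ev hw k (by omega)
      funext i
      rcases Nat.lt_or_ge i j with hi | hi
      · exact hlow i hi
      · rcases Nat.lt_or_ge n i with hi2 | hi2
        · rw [hd x hx.1 i hi2, hd y hy.1 i hi2]
        · have h1 := hx.2 (n - i) (by omega)
          have h2 := hy.2 (n - i) (by omega)
          have e1 : n - (n - i) = i := by omega
          rw [e1] at h1 h2
          rw [h1, h2]
          exact hxy (n - i) (by omega)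
  calc Y.card ≤ (SS L d I ev (n + 1) ∪
      (Finset.range (n + 1)).biUnion (fun j => (I (n + 1 - j)).biUnion (fun e => Bad j e))).card :=
        Finset.card_le_card hsub
    _ ≤ (SS L d I ev (n + 1)).card + ((Finset.range (n + 1)).biUnion
        (fun j => (I (n + 1 - j)).biUnion (fun e => Bad j e))).card := Finset.card_union_le _ _
    _ ≤ (SS L d I ev (n + 1)).card + ∑ j ∈ Finset.range (n + 1),
        N0 * ((n + 1 - j) * (SS L d I ev j).card) := by
        apply Nat.add_le_add_left
        refine le_trans Finset.card_biUnion_le ?_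
        apply Finset.sum_le_sum
        intro j hj
        rw [Finset.mem_range] at hj
        refine le_trans Finset.card_biUnion_le ?_
        refine le_trans (Finset.sum_le_card_nsmul _ _ _ (fun e _ => hBadcard j hj e)) ?_
        rw [smul_eq_mul, ← mul_assoc]
        exact Nat.mul_le_mul_right _ (hI _ (by omega))

lemma growth (s : ℕ → ℕ) (N0 c : ℕ) (hc : 4 + 2 * N0 ≤ c)
    (h : ∀ n, s n * c ≤ s (n + 1) + ∑ j ∈ Finset.range (n + 1), N0 * ((n + 1 - j) * s j)) :
    ∀ n, (4 * s n ≤ s (n + 1)) ∧ 3 * (∑ j ∈ Finset.range (n + 1), s j) ≤ 4 * s n ∧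
      9 * (∑ j ∈ Finset.range (n + 1), (n + 1 - j) * s j) ≤ 16 * s n := by
  have hstep : ∀ n, 9 * (∑ j ∈ Finset.range (n + 1), (n + 1 - j) * s j) ≤ 16 * s n →
      4 * s n ≤ s (n + 1) := by
    intro n hn
    have h1 := h n
    rw [← Finset.mul_sum] at h1
    have h2 : s n * (4 + 2 * N0) ≤ s n * c := Nat.mul_le_mul_left _ hc
    have h3 : N0 * (∑ j ∈ Finset.range (n + 1), (n + 1 - j) * s j) ≤ N0 * (2 * s n) := by
      apply Nat.mul_le_mul_left
      omega
    nlinarith
  intro n
  induction n with
  | zero =>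
    have h9 : 9 * (∑ j ∈ Finset.range (0 + 1), (0 + 1 - j) * s j) ≤ 16 * s 0 := by
      simp; omega
    refine ⟨hstep 0 h9, ?_, h9⟩
    simp; omega
  | succ n ih =>
    obtain ⟨i1, i2, i3⟩ := ih
    have hB : 3 * (∑ j ∈ Finset.range (n + 1 + 1), s j) ≤ 4 * s (n + 1) := by
      rw [Finset.sum_range_succ]
      omega
    have hA : 9 * (∑ j ∈ Finset.range (n + 1 + 1), (n + 1 + 1 - j) * s j) ≤ 16 * s (n + 1) := by
      have e : ∑ j ∈ Finset.range (n + 1 + 1), (n + 1 + 1 - j) * s j =
          ∑ j ∈ Finset.range (n + 1), (n + 1 - j) * s j +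
            ∑ j ∈ Finset.range (n + 1 + 1), s j := by
        rw [Finset.sum_range_succ, Finset.sum_range_succ (fun j => s j)]
        have : ∑ j ∈ Finset.range (n + 1), (n + 1 + 1 - j) * s j =
            ∑ j ∈ Finset.range (n + 1), (n + 1 - j) * s j + ∑ j ∈ Finset.range (n + 1), s j := by
          rw [← Finset.sum_add_distrib]
          apply Finset.sum_congr rfl
          intro j hj
          rw [Finset.mem_range] at hj
          have : n + 1 + 1 - j = (n + 1 - j) + 1 := by omega
          rw [this, add_mul, one_mul]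
        rw [this]
        have e2 : n + 1 + 1 - (n + 1) = 1 := by omega
        rw [e2, one_mul, add_assoc]
      rw [e]
      omega
    exact ⟨hstep _ hA, hB, hA⟩

/-- The core lemma. -/
theorem core (hloc : ∀ k u e x y, 1 ≤ u → u ≤ k + 1 → (∀ i, i < k + 1 - u → x i = y i) →
      ∀ i, i < u → ev k u e x i = ev k u e y i) (N0 : ℕ)
    (hI : ∀ u, 1 ≤ u → (I u).card ≤ N0 * u) (hL : ∀ n, 4 + 2 * N0 ≤ (L n).card) (n : ℕ) :
    ∃ x : ℕ → α, ∀ k, k < n → x k ∈ L k ∧ OKat I ev k x := by
  classical
  obtain ⟨d, _⟩ : ∃ d, d ∈ L 0 := by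
    apply Finset.Nonempty.exists_mem
    rw [← Finset.card_pos]
    have := hL 0
    omega
  have hg := growth (fun m => (SS L d I ev m).card) N0 (4 + 2 * N0) le_rfl (by
    intro m
    refine le_trans ?_ (SS_count L d I ev hloc N0 hI m)
    exact Nat.mul_le_mul_left _ (hL m))
  have hpos : ∀ m, 0 < (SS L d I ev m).card := by
    intro m
    induction m with
    | zero => simp [SS]
    | succ m ih => have := (hg m).1; omega
  obtain ⟨x, hx⟩ := Finset.card_pos.mp (hpos n)
  exact ⟨x, SS_ok L d I ev hloc hx⟩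

end Core


section Rooted

/-- Rooted tree with rank function. -/
structure RT {V : Type*} (par : V → V) (dep rk : V → ℕ) : Prop where
  dep_par : ∀ v, dep v ≠ 0 → dep (par v) + 1 = dep v
  rk_mono : ∀ v, dep v ≠ 0 → rk v ≤ rk (par v)
  heavy : ∀ x y, dep x ≠ 0 → dep y ≠ 0 → par x = par y → rk x = rk (par x) →
    rk y = rk (par y) → x = y

/-- The constraints. -/
def Good {V α : Type*} (par : V → V) (dep rk : V → ℕ) (φ : V → α) (K : ℕ) (l : V) : Prop :=
  (∀ u ζ, 1 ≤ u → ζ ≤ K * u → 2 * u + ζ ≤ dep l + 1 →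
    ∃ i, i < u ∧ φ (par^[i] l) ≠ φ (par^[u + ζ + i] l)) ∧
  (∀ δ a σ w, 1 ≤ a → a ≤ δ → δ ≤ dep l → rk (par^[δ - 1] l) < rk (par^[δ] l) → 1 ≤ σ →
    σ ≤ K * a → dep w = dep (par^[δ] l) + (σ + a - 1) → par^[σ + a - 1] w = par^[δ] l →
    rk w = rk (par^[δ] l) → ∃ i, i < a ∧ φ (par^[i] l) ≠ φ (par^[a - 1 - i] w)) ∧
  (∀ δ b a, 1 ≤ b → b ≤ δ → δ ≤ dep l → rk (par^[δ - 1] l) < rk (par^[δ] l) → a ≤ K * b →
    δ + a + b ≤ dep l + 1 → ∃ i, i < b ∧ φ (par^[i] l) ≠ φ (par^[δ + a + i] l))

variable {V α : Type*} {par : V → V} {dep rk : V → ℕ}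

lemma RT.dep_anc (h : RT par dep rk) (v : V) (i : ℕ) (hi : i ≤ dep v) :
    dep (par^[i] v) + i = dep v := by
  induction i with
  | zero => simp
  | succ i ih =>
    have h1 := ih (by omega)
    rw [Function.iterate_succ_apply']
    have := h.dep_par (par^[i] v) (by omega)
    omega

lemma RT.rk_anc (h : RT par dep rk) (v : V) (i : ℕ) (hi : i ≤ dep v) :
    rk v ≤ rk (par^[i] v) := by
  induction i with
  | zero => simp
  | succ i ih =>
    have h1 := ih (by omega)
    have h2 := h.dep_anc v i (by omega)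
    rw [Function.iterate_succ_apply']
    exact h1.trans (h.rk_mono _ (by omega))

lemma bent (hRT : RT par dep rk) (φ : V → α) (hgood : ∀ l, ∃ K, 3 ≤ K ∧ Good par dep rk φ K l)
    (t : ℕ) (q : ℕ → V) (m : ℕ) (hm1 : 0 < m) (hm2 : m + 1 < 2 * t)
    (hup : ∀ i, i < m → dep (q i) ≠ 0 ∧ par (q i) = q (i + 1))
    (hdown : ∀ i, m ≤ i → i + 1 < 2 * t → dep (q (i + 1)) ≠ 0 ∧ par (q (i + 1)) = q i)
    (hlight : rk (q (m - 1)) < rk (q m))
    (hrep : ∀ i, i < t → φ (q i) = φ (q (i + t))) : False := by
  have F1 : ∀ j i, i + j ≤ m → par^[j] (q i) = q (i + j) := by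
    intro j
    induction j with
    | zero => intro i _; rfl
    | succ j ih =>
      intro i hi
      rw [Function.iterate_succ_apply', ih i (by omega), (hup (i + j) (by omega)).2]
      rfl
  have F2 : ∀ j i, m ≤ i → i + j < 2 * t → par^[j] (q (i + j)) = q i := by
    intro j
    induction j with
    | zero => intro i _ _; rfl
    | succ j ih =>
      intro i hi hi2
      rw [Function.iterate_succ_apply]
      have := (hdown (i + j) (by omega) (by omega)).2
      rw [show i + (j + 1) = i + j + 1 by omega, this]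
      exact ih i hi (by omega)
  have D1 : ∀ j, j ≤ m → dep (q (m - j)) = dep (q m) + j := by
    intro j
    induction j with
    | zero => intro _; rfl
    | succ j ih =>
      intro hj
      have h1 := hup (m - (j + 1)) (by omega)
      have h2 := hRT.dep_par _ h1.1
      rw [h1.2, show m - (j + 1) + 1 = m - j by omega, ih (by omega)] at h2
      omega
  have D2 : ∀ j, m + j < 2 * t → dep (q (m + j)) = dep (q m) + j := by
    intro j
    induction j with
    | zero => intro _; rfl
    | succ j ih =>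
      intro hj
      have h1 := hdown (m + j) (by omega) (by omega)
      have h2 := hRT.dep_par _ h1.1
      rw [h1.2, ih (by omega)] at h2
      rw [show m + (j + 1) = m + j + 1 by omega]
      omega
  -- light ancestor of the left leg
  have L1 : ∀ i, i < m → rk (par^[m - i - 1] (q i)) < rk (par^[m - i] (q i)) := by
    intro i hi
    rw [F1 _ _ (by omega), F1 _ _ (by omega), show i + (m - i - 1) = m - 1 by omega,
      show i + (m - i) = m by omega]
    exact hlight
  have hdepi : ∀ i, i ≤ m → dep (q i) = dep (q m) + (m - i) := by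
    intro i hi
    have := D1 (m - i) (by omega)
    rwa [show m - (m - i) = i by omega] at this
  -- z's colour avoided on the left leg
  have A1 : ∀ i, i < m → φ (q i) ≠ φ (q m) := by
    intro i hi
    obtain ⟨K, hK, _, _, h3⟩ := hgood (q i)
    have hd := hdepi i (by omega)
    obtain ⟨i', hi', hne⟩ := h3 (m - i) 1 0 le_rfl (by omega) (by omega) (L1 i hi) (by omega)
      (by omega)
    have : i' = 0 := by omega
    subst this
    rw [Function.iterate_zero, id, F1 _ _ (by omega)] at hne
    rw [show i + (m - i + 0 + 0) = m by omega] at hne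
    exact hne
  have hmt : m < t := by
    by_contra hc
    have := hrep (m - t) (by omega)
    rw [show m - t + t = m by omega] at this
    exact A1 (m - t) (by omega) this
  -- rank monotone on right leg, find rho
  have hmono : ∀ j, m + j + 1 < 2 * t → rk (q (m + j + 1)) ≤ rk (q (m + j)) := by
    intro j hj
    have h1 := hdown (m + j) (by omega) (by omega)
    have := hRT.rk_mono _ h1.1
    rwa [h1.2] at this
  have hex : ∃ j, m + j + 1 = 2 * t ∨ (m + j + 1 < 2 * t ∧ rk (q (m + j + 1)) < rk (q (m + j))) :=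
    ⟨2 * t - 1 - m, Or.inl (by omega)⟩
  obtain ⟨ρ, hρ1, hρ2⟩ : ∃ ρ, (m + ρ + 1 = 2 * t ∨ (m + ρ + 1 < 2 * t ∧
      rk (q (m + ρ + 1)) < rk (q (m + ρ)))) ∧ ∀ j, j < ρ → ¬ (m + j + 1 = 2 * t ∨
      (m + j + 1 < 2 * t ∧ rk (q (m + j + 1)) < rk (q (m + j)))) := by
    classical
    exact ⟨Nat.find hex, Nat.find_spec hex, fun j hj => Nat.find_min hex hj⟩
  have hρlt : m + ρ < 2 * t := by rcases hρ1 with h | h <;> omega
  have hrkeq : ∀ j, j ≤ ρ → rk (q (m + j)) = rk (q m) := by
    intro j
    induction j with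
    | zero => intro _; rfl
    | succ j ih =>
      intro hj
      have h1 := hρ2 j (by omega)
      push Not at h1
      have h2 := h1.2 (by omega)
      have h3 := hmono j (by omega)
      rw [show m + (j + 1) = m + j + 1 by omega]
      have h4 := ih (by omega)
      omega
  -- light ancestor q (m + rho) of later vertices
  have L2 : ∀ j, ρ < j → m + j < 2 * t →
      rk (par^[j - ρ - 1] (q (m + j))) < rk (par^[j - ρ] (q (m + j))) := by
    intro j hj hj2
    have e1 : m + j = (m + ρ + 1) + (j - ρ - 1) := by omega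
    have e2 : m + j = (m + ρ) + (j - ρ) := by omega
    have h1 : par^[j - ρ - 1] (q (m + j)) = q (m + ρ + 1) := by
      conv_lhs => rw [e1]
      rw [show (m + ρ + 1) + (j - ρ - 1) = (m + ρ + 1) + (j - ρ - 1) from rfl]
      exact F2 (j - ρ - 1) (m + ρ + 1) (by omega) (by omega)
    have h2 : par^[j - ρ] (q (m + j)) = q (m + ρ) := by
      conv_lhs => rw [e2]
      exact F2 (j - ρ) (m + ρ) (by omega) (by omega)
    rw [h1, h2]
    rcases hρ1 with h | h
    · omega
    · exact h.2
  have A2 : ∀ j, ρ < j → m + j < 2 * t → φ (q (m + j)) ≠ φ (q (m + ρ)) := by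
    intro j hj hj2
    obtain ⟨K, hK, _, _, h3⟩ := hgood (q (m + j))
    have hd := D2 j hj2
    obtain ⟨i', hi', hne⟩ := h3 (j - ρ) 1 0 le_rfl (by omega) (by omega) (L2 j hj hj2) (by omega)
      (by omega)
    have : i' = 0 := by omega
    subst this
    rw [Function.iterate_zero, id, show j - ρ + 0 + 0 = j - ρ by omega] at hne
    have e2 : m + j = (m + ρ) + (j - ρ) := by omega
    have h2 : par^[j - ρ] (q (m + j)) = q (m + ρ) := by
      conv_lhs => rw [e2]
      exact F2 (j - ρ) (m + ρ) (by omega) (by omega)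
    rwa [h2] at hne
  have hρt : t ≤ m + ρ := by
    by_contra hc
    have := hrep (m + ρ) (by omega)
    rw [show m + ρ + t = m + (ρ + t) by omega] at this
    exact A2 (ρ + t) (by omega) (by omega) this.symm
  -- parameters: a = m + ρ - (t - 1), b = t - m, m' = 2t - 1 - m - ρ
  obtain ⟨a, ha⟩ : ∃ a, a + t = m + ρ + 1 := ⟨m + ρ + 1 - t, by omega⟩
  obtain ⟨b, hb⟩ : ∃ b, b + m = t := ⟨t - m, by omega⟩
  obtain ⟨m', hm'⟩ : ∃ m', m' + m + ρ + 1 = 2 * t := ⟨2 * t - 1 - m - ρ, by omega⟩
  have hdep0 := hdepi 0 (by omega)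
  have hdepx' : dep (q (2 * t - 1)) = dep (q m) + (2 * t - 1 - m) := by
    have := D2 (2 * t - 1 - m) (by omega)
    rwa [show m + (2 * t - 1 - m) = 2 * t - 1 by omega] at this
  have hleft0 : par^[m] (q 0) = q m := by
    have := F1 m 0 (by omega)
    rwa [show 0 + m = m by omega] at this
  have hL0 : rk (par^[m - 1] (q 0)) < rk (par^[m] (q 0)) := by
    have := L1 0 hm1
    simpa using this
  have F2' : ∀ i j, m ≤ i → i + j < 2 * t → ∀ k, k = i + j → par^[j] (q k) = q i := by
    intro i j h1 h2 k hk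
    rw [hk]; exact F2 j i h1 h2
  by_cases hcase : a ≤ m
  · -- q ≥ 0
    have hbK : ∃ K, 3 ≤ K ∧ K * a < b := by
      obtain ⟨K, hK, _, h2, _⟩ := hgood (q 0)
      refine ⟨K, hK, ?_⟩
      by_contra hc
      obtain ⟨i, hi, hne⟩ := h2 m a b (q (m + ρ)) (by omega) hcase (by omega) hL0 (by omega)
        (by omega) (by rw [hleft0, D2 ρ (by omega)]; omega)
        (by rw [hleft0]; exact F2' m (b + a - 1) le_rfl (by omega) _ (by omega))
        (by rw [hleft0]; exact hrkeq ρ le_rfl)
      apply hne
      have e1 : par^[i] (q 0) = q i := by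
        have := F1 i 0 (by omega)
        rwa [show 0 + i = i by omega] at this
      have e2 : par^[a - 1 - i] (q (m + ρ)) = q (i + t) :=
        F2' (i + t) (a - 1 - i) (by omega) (by omega) _ (by omega)
      rw [e1, e2]
      exact hrep i (by omega)
    obtain ⟨K0, hK0, hKb⟩ := hbK
    have hab : a < b := by nlinarith
    obtain ⟨K, hK, _, _, h3⟩ := hgood (q (2 * t - 1))
    have hm'b : b ≤ m' := by omega
    have hb1 : 1 ≤ b := by omega
    have hl := L2 (2 * t - 1 - m) (by omega) (by omega)
    rw [show m + (2 * t - 1 - m) = 2 * t - 1 by omega, show 2 * t - 1 - m - ρ = m' by omega] at hl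
    obtain ⟨i, hi, hne⟩ := h3 m' b a hb1 hm'b (by omega) hl
      (by nlinarith) (by omega)
    apply hne
    have e1 : par^[i] (q (2 * t - 1)) = q (2 * t - 1 - i) :=
      F2' (2 * t - 1 - i) i (by omega) (by omega) _ (by omega)
    have e2 : par^[m' + a + i] (q (2 * t - 1)) = q (t - 1 - i) :=
      F2' (t - 1 - i) (m' + a + i) (by omega) (by omega) _ (by omega)
    rw [e1, e2]
    have := hrep (t - 1 - i) (by omega)
    rw [show t - 1 - i + t = 2 * t - 1 - i by omega] at this
    exact this.symm
  · -- q < 0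
    obtain ⟨u, hu⟩ : ∃ u, m + u = a := ⟨a - m, by omega⟩
    have hu1 : 1 ≤ u := by omega
    have hmm : u < m + m' := by
      by_contra hc
      obtain ⟨K, hK, h1, _, _⟩ := hgood (q (m + ρ))
      have hd := D2 ρ (by omega)
      obtain ⟨i, hi, hne⟩ := h1 u (m + m') hu1 (by nlinarith) (by omega)
      apply hne
      have e1 : par^[i] (q (m + ρ)) = q (m + ρ - i) :=
        F2' (m + ρ - i) i (by omega) (by omega) _ (by omega)
      have e2 : par^[u + (m + m') + i] (q (m + ρ)) = q (m + ρ - i - t) :=
        F2' (m + ρ - i - t) (u + (m + m') + i) (by omega) (by omega) _ (by omega)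
      rw [e1, e2]
      have := hrep (m + ρ - i - t) (by omega)
      rw [show m + ρ - i - t + t = m + ρ - i by omega] at this
      exact this.symm
    by_cases hc2 : m' ≤ m
    · obtain ⟨K, hK, _, h2, _⟩ := hgood (q 0)
      have hdw := D2 (t - 1) (by omega)
      rw [show m + (t - 1) = t - 1 + m by omega] at hdw
      obtain ⟨i, hi, hne⟩ := h2 m m b (q (t - 1 + m)) (by omega) le_rfl (by omega) hL0 (by omega)
        (by nlinarith) (by rw [hleft0]; omega)
        (by rw [hleft0]; exact F2' m (b + m - 1) le_rfl (by omega) _ (by omega))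
        (by
          rw [hleft0]
          have := hrkeq (t - 1) (by omega)
          rwa [show m + (t - 1) = t - 1 + m by omega] at this)
      apply hne
      have e1 : par^[i] (q 0) = q i := by
        have := F1 i 0 (by omega)
        rwa [show 0 + i = i by omega] at this
      have e2 : par^[m - 1 - i] (q (t - 1 + m)) = q (i + t) :=
        F2' (i + t) (m - 1 - i) (by omega) (by omega) _ (by omega)
      rw [e1, e2]
      exact hrep i (by omega)
    · obtain ⟨K, hK, _, _, h3⟩ := hgood (q (2 * t - 1))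
      have hl := L2 (2 * t - 1 - m) (by omega) (by omega)
      rw [show m + (2 * t - 1 - m) = 2 * t - 1 by omega,
        show 2 * t - 1 - m - ρ = m' by omega] at hl
      obtain ⟨i, hi, hne⟩ := h3 m' m' a (by omega) le_rfl (by omega) hl
        (by nlinarith) (by omega)
      apply hne
      have e1 : par^[i] (q (2 * t - 1)) = q (2 * t - 1 - i) :=
        F2' (2 * t - 1 - i) i (by omega) (by omega) _ (by omega)
      have e2 : par^[m' + a + i] (q (2 * t - 1)) = q (t - 1 - i) :=
        F2' (t - 1 - i) (m' + a + i) (by omega) (by omega) _ (by omega)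
      rw [e1, e2]
      have := hrep (t - 1 - i) (by omega)
      rw [show t - 1 - i + t = 2 * t - 1 - i by omega] at this
      exact this.symm


lemma nonrep_seq (hRT : RT par dep rk) (φ : V → α)
    (hgood : ∀ l, ∃ K, 3 ≤ K ∧ Good par dep rk φ K l)
    (t : ℕ) (ht : 0 < t) (q : ℕ → V) (hinj : ∀ i j, i < 2 * t → j < 2 * t → q i = q j → i = j)
    (hadj : ∀ i, i + 1 < 2 * t → (dep (q i) ≠ 0 ∧ par (q i) = q (i + 1)) ∨
      (dep (q (i + 1)) ≠ 0 ∧ par (q (i + 1)) = q i))
    (hrep : ∀ i, i < t → φ (q i) = φ (q (i + t))) : False := by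
  classical
  have hex : ∃ m, m + 1 = 2 * t ∨ (m + 1 < 2 * t ∧ dep (q (m + 1)) ≠ 0 ∧ par (q (m + 1)) = q m) :=
    ⟨2 * t - 1, Or.inl (by omega)⟩
  obtain ⟨m, hm1, hm2⟩ : ∃ m, (m + 1 = 2 * t ∨ (m + 1 < 2 * t ∧ dep (q (m + 1)) ≠ 0 ∧
      par (q (m + 1)) = q m)) ∧ ∀ j, j < m → ¬ (j + 1 = 2 * t ∨
      (j + 1 < 2 * t ∧ dep (q (j + 1)) ≠ 0 ∧ par (q (j + 1)) = q j)) :=
    ⟨Nat.find hex, Nat.find_spec hex, fun j hj => Nat.find_min hex hj⟩
  have hmlt : m < 2 * t := by rcases hm1 with h | h <;> omega
  have hup : ∀ i, i < m → dep (q i) ≠ 0 ∧ par (q i) = q (i + 1) := by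
    intro i hi
    have h1 := hm2 i hi
    push Not at h1
    rcases hadj i (by omega) with h | h
    · exact h
    · exact absurd h.2 (h1.2 (by omega) h.1)
  have hdown : ∀ j, m + j + 1 < 2 * t →
      dep (q (m + j + 1)) ≠ 0 ∧ par (q (m + j + 1)) = q (m + j) := by
    intro j
    induction j with
    | zero =>
      intro hj
      rcases hm1 with h | h
      · omega
      · exact h.2
    | succ j ih =>
      intro hj
      have h1 := ih (by omega)
      rcases hadj (m + (j + 1)) (by omega) with h | h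
      · exfalso
        rw [show m + (j + 1) = m + j + 1 by omega] at h
        rw [h1.2] at h
        have := hinj _ _ (by omega) (by omega) h.2
        omega
      · exact h
  have hdown' : ∀ i, m ≤ i → i + 1 < 2 * t → dep (q (i + 1)) ≠ 0 ∧ par (q (i + 1)) = q i := by
    intro i hi hi2
    have := hdown (i - m) (by omega)
    rwa [show m + (i - m) + 1 = i + 1 by omega, show m + (i - m) = i by omega] at this
  rcases Nat.eq_zero_or_pos m with hm0 | hmpos
  · -- pure down path
    subst hm0
    have F2 : ∀ j i, i + j < 2 * t → par^[j] (q (i + j)) = q i := by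
      intro j
      induction j with
      | zero => intro i _; rfl
      | succ j ih =>
        intro i hi
        rw [Function.iterate_succ_apply]
        have := (hdown' (i + j) (by omega) (by omega)).2
        rw [show i + (j + 1) = i + j + 1 by omega, this]
        exact ih i (by omega)
    have D2 : ∀ j, j < 2 * t → j ≤ dep (q j) := by
      intro j
      induction j with
      | zero => intro _; omega
      | succ j ih =>
        intro hj
        have h1 := hdown' j (by omega) (by omega)
        have h2 := hRT.dep_par _ h1.1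
        rw [h1.2] at h2
        have := ih (by omega)
        omega
    obtain ⟨K, hK, h1, _, _⟩ := hgood (q (2 * t - 1))
    have hd := D2 (2 * t - 1) (by omega)
    obtain ⟨i, hi, hne⟩ := h1 t 0 ht (by omega) (by omega)
    apply hne
    have e1 : par^[i] (q (2 * t - 1)) = q (2 * t - 1 - i) := by
      have := F2 i (2 * t - 1 - i) (by omega)
      rwa [show 2 * t - 1 - i + i = 2 * t - 1 by omega] at this
    have e2 : par^[t + 0 + i] (q (2 * t - 1)) = q (t - 1 - i) := by
      have := F2 (t + 0 + i) (t - 1 - i) (by omega)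
      rwa [show t - 1 - i + (t + 0 + i) = 2 * t - 1 by omega] at this
    rw [e1, e2]
    have := hrep (t - 1 - i) (by omega)
    rw [show t - 1 - i + t = 2 * t - 1 - i by omega] at this
    exact this.symm
  · by_cases hme : m + 1 = 2 * t
    · -- pure up path
      have F1 : ∀ j i, i + j ≤ m → par^[j] (q i) = q (i + j) := by
        intro j
        induction j with
        | zero => intro i _; rfl
        | succ j ih =>
          intro i hi
          rw [Function.iterate_succ_apply', ih i (by omega), (hup (i + j) (by omega)).2]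
          rfl
      have D1 : ∀ j, j ≤ m → j ≤ dep (q (m - j)) := by
        intro j
        induction j with
        | zero => intro _; omega
        | succ j ih =>
          intro hj
          have h1 := hup (m - (j + 1)) (by omega)
          have h2 := hRT.dep_par _ h1.1
          rw [h1.2, show m - (j + 1) + 1 = m - j by omega] at h2
          have := ih (by omega)
          omega
      obtain ⟨K, hK, h1, _, _⟩ := hgood (q 0)
      have hd := D1 m le_rfl
      rw [Nat.sub_self] at hd
      obtain ⟨i, hi, hne⟩ := h1 t 0 ht (by omega) (by omega)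
      apply hne
      have e1 : par^[i] (q 0) = q i := by
        have := F1 i 0 (by omega)
        rwa [show 0 + i = i by omega] at this
      have e2 : par^[t + 0 + i] (q 0) = q (i + t) := by
        have := F1 (t + 0 + i) 0 (by omega)
        rwa [show 0 + (t + 0 + i) = i + t by omega] at this
      rw [e1, e2]
      exact hrep i hi
    · -- bent path
      have hm1' : m + 1 < 2 * t := by omega
      by_cases hl : rk (q (m - 1)) < rk (q m)
      · exact bent hRT φ hgood t q m hmpos hm1' hup hdown' hl hrep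
      · by_cases hr : rk (q (m + 1)) < rk (q m)
        · -- reverse the path
          refine bent hRT φ hgood t (fun i => q (2 * t - 1 - i)) (2 * t - 1 - m) (by omega)
            (by omega) ?_ ?_ ?_ ?_
          · intro i hi
            have := hdown' (2 * t - 1 - (i + 1)) (by omega) (by omega)
            rw [show 2 * t - 1 - (i + 1) + 1 = 2 * t - 1 - i by omega] at this
            exact this
          · intro i hi hi2
            have := hup (2 * t - 1 - (i + 1)) (by omega)
            rw [show 2 * t - 1 - (i + 1) + 1 = 2 * t - 1 - i by omega] at this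
            exact this
          · show rk (q (2 * t - 1 - (2 * t - 1 - m - 1))) < rk (q (2 * t - 1 - (2 * t - 1 - m)))
            rw [show 2 * t - 1 - (2 * t - 1 - m - 1) = m + 1 by omega,
              show 2 * t - 1 - (2 * t - 1 - m) = m by omega]
            exact hr
          · intro i hi
            have := hrep (t - 1 - i) (by omega)
            show φ (q (2 * t - 1 - i)) = φ (q (2 * t - 1 - (i + t)))
            rw [show t - 1 - i + t = 2 * t - 1 - i by omega] at this
            rw [show 2 * t - 1 - (i + t) = t - 1 - i by omega]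
            exact this.symm
        · exfalso
          have h1 := hup (m - 1) (by omega)
          have h2 := hdown' m le_rfl hm1'
          rw [show m - 1 + 1 = m by omega] at h1
          have r1 := hRT.rk_mono _ h1.1
          have r2 := hRT.rk_mono _ h2.1
          rw [h1.2] at r1
          rw [h2.2] at r2
          have := hRT.heavy (q (m - 1)) (q (m + 1)) h1.1 h2.1 (by rw [h1.2, h2.2])
            (by rw [h1.2]; omega) (by rw [h2.2]; omega)
          have := hinj _ _ (by omega) (by omega) this
          omega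

end Rooted



section Exist

def kap (ρ : ℕ) : ℕ := 4 * 2 ^ ρ - 1

lemma kap_ge (ρ : ℕ) : 3 ≤ kap ρ := by
  unfold kap
  have : 0 < 2 ^ ρ := by positivity
  omega

lemma kap_mono {ρ ρ' : ℕ} (h : ρ ≤ ρ') : kap ρ ≤ kap ρ' := by
  unfold kap
  have : 2 ^ ρ ≤ 2 ^ ρ' := Nat.pow_le_pow_right (by norm_num) h
  omega

lemma kap_lt {ρ ρ' : ℕ} (h : ρ < ρ') : 2 * kap ρ + 1 ≤ kap ρ' := by
  have h1 := kap_mono (show ρ + 1 ≤ ρ' from h)
  refine le_trans ?_ h1
  unfold kap
  have : 0 < 2 ^ ρ := by positivity
  have e : 2 ^ (ρ + 1) = 2 * 2 ^ ρ := by rw [pow_succ]; ring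
  omega

variable {V α : Type*} {par : V → V} {dep rk : V → ℕ}

open Classical in
noncomputable def hc (par : V → V) (dep rk : V → ℕ) (v : V) : V :=
  if h : ∃ x, dep x ≠ 0 ∧ par x = v ∧ rk x = rk v then h.choose else v

lemma hc_spec (hRT : RT par dep rk) (w : V) (h1 : dep w ≠ 0) (h2 : rk w = rk (par w)) :
    hc par dep rk (par w) = w := by
  have hex : ∃ x, dep x ≠ 0 ∧ par x = par w ∧ rk x = rk (par w) := ⟨w, h1, rfl, h2⟩
  unfold hc
  rw [dif_pos hex]
  obtain ⟨a1, a2, a3⟩ := hex.choose_spec
  exact hRT.heavy _ _ a1 h1 a2 (by rw [a2]; exact a3) h2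

lemma hc_iter (hRT : RT par dep rk) (w : V) (n : ℕ) (hn : n ≤ dep w)
    (hrk : rk w = rk (par^[n] w)) : ∀ i, i ≤ n →
      (hc par dep rk)^[i] (par^[n] w) = par^[n - i] w := by
  intro i
  induction i with
  | zero => intro _; rfl
  | succ i ih =>
    intro hi
    rw [Function.iterate_succ_apply', ih (by omega)]
    have e : n - i = (n - (i + 1)) + 1 := by omega
    rw [e, Function.iterate_succ_apply']
    have hd := hRT.dep_anc w (n - (i + 1)) (by omega)
    apply hc_spec hRT _ (by omega)
    rw [← Function.iterate_succ_apply' par]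
    have h1 := hRT.rk_anc w (n - (i + 1)) (by omega)
    have h2 := hRT.rk_mono (par^[n - (i + 1)] w) (by omega)
    rw [← Function.iterate_succ_apply' par] at h2
    have hd2 := hRT.dep_anc w (n - (i + 1) + 1) (by omega)
    have h3 := hRT.rk_anc (par^[n - (i + 1) + 1] w) i (by omega)
    rw [← Function.iterate_add_apply, show i + (n - (i + 1) + 1) = n by omega, ← hrk] at h3
    simp only [Nat.succ_eq_add_one] at h2 ⊢
    omega

/-- the index in the heavy path -/
def PI (par : V → V) (dep rk : V → ℕ) (l : V) (j : ℕ) : Prop :=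
  dep l = j ∨ (j < dep l ∧ rk l < rk (par^[j + 1] l))

lemma PI_ex (par : V → V) (dep rk : V → ℕ) (l : V) : ∃ j, PI par dep rk l j :=
  ⟨dep l, Or.inl rfl⟩

open Classical in
noncomputable def idx (par : V → V) (dep rk : V → ℕ) (l : V) : ℕ :=
  Nat.find (PI_ex par dep rk l)

lemma idx_spec (par : V → V) (dep rk : V → ℕ) (l : V) :
    PI par dep rk l (idx par dep rk l) := by
  classical
  exact Nat.find_spec (PI_ex par dep rk l)

lemma idx_min (par : V → V) (dep rk : V → ℕ) (l : V) (j : ℕ) (hj : j < idx par dep rk l) :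
    ¬ PI par dep rk l j := by
  classical
  exact Nat.find_min (PI_ex par dep rk l) hj

lemma idx_le (par : V → V) (dep rk : V → ℕ) (l : V) : idx par dep rk l ≤ dep l := by
  rcases idx_spec par dep rk l with h | h <;> omega

lemma idx_rk (hRT : RT par dep rk) (l : V) (i : ℕ) (hi : i ≤ idx par dep rk l) :
    rk (par^[i] l) = rk l := by
  have hle := idx_le par dep rk l
  rcases Nat.eq_zero_or_pos i with h | h
  · subst h; rfl
  · have h1 := idx_min par dep rk l (i - 1) (by omega)
    unfold PI at h1
    push Not at h1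
    have h2 := h1.2 (by omega)
    rw [show i - 1 + 1 = i by omega] at h2
    have h3 := hRT.rk_anc l i (by omega)
    omega

lemma idx_anc (hRT : RT par dep rk) (l : V) (i : ℕ) (hi : i ≤ idx par dep rk l) :
    idx par dep rk (par^[i] l) = idx par dep rk l - i := by
  classical
  have hle := idx_le par dep rk l
  have hd := hRT.dep_anc l i (by omega)
  have hr := idx_rk hRT l i hi
  have key : ∀ j, PI par dep rk (par^[i] l) j ↔ PI par dep rk l (j + i) := by
    intro j
    unfold PI
    rw [hr, ← Function.iterate_add_apply, show j + 1 + i = j + i + 1 by omega]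
    constructor
    · rintro (h | h)
      · left; omega
      · right; exact ⟨by omega, h.2⟩
    · rintro (h | h)
      · left; omega
      · right; exact ⟨by omega, h.2⟩
  unfold idx
  rw [Nat.find_eq_iff]
  refine ⟨?_, ?_⟩
  · rw [key]
    have := idx_spec par dep rk l
    unfold idx at this hi
    rwa [Nat.sub_add_cancel hi]
  · intro n hn
    rw [key]
    apply idx_min
    unfold idx
    omega

noncomputable def top (par : V → V) (dep rk : V → ℕ) (l : V) : V := par^[idx par dep rk l] l

lemma top_anc (hRT : RT par dep rk) (l : V) (i : ℕ) (hi : i ≤ idx par dep rk l) :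
    top par dep rk (par^[i] l) = top par dep rk l := by
  unfold top
  rw [idx_anc hRT l i hi, ← Function.iterate_add_apply, Nat.sub_add_cancel hi]

lemma hc_top (hRT : RT par dep rk) (l : V) :
    (hc par dep rk)^[idx par dep rk l] (top par dep rk l) = l := by
  unfold top
  rw [hc_iter hRT l _ (idx_le par dep rk l) (idx_rk hRT l _ le_rfl).symm _ le_rfl, Nat.sub_self]
  rfl

lemma Good_congr (hRT : RT par dep rk) (φ φ' : V → α) (ρ K : ℕ)
    (hφ : ∀ v, ρ ≤ rk v → φ v = φ' v) (l : V) (hl : ρ ≤ rk l) (h : Good par dep rk φ K l) :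
    Good par dep rk φ' K l := by
  obtain ⟨h1, h2, h3⟩ := h
  have ha : ∀ i, i ≤ dep l → φ (par^[i] l) = φ' (par^[i] l) := fun i hi =>
    hφ _ (hl.trans (hRT.rk_anc l i hi))
  refine ⟨?_, ?_, ?_⟩
  · intro u ζ hu hζ hlen
    obtain ⟨i, hi, hne⟩ := h1 u ζ hu hζ hlen
    refine ⟨i, hi, ?_⟩
    rw [← ha _ (by omega), ← ha _ (by omega)]
    exact hne
  · intro δ a σ w h4 h5 h6 h7 h8 h9 h10 h11 h12
    obtain ⟨i, hi, hne⟩ := h2 δ a σ w h4 h5 h6 h7 h8 h9 h10 h11 h12
    refine ⟨i, hi, ?_⟩
    have h13 := hRT.rk_anc l δ h6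
    have h14 := hRT.rk_anc w (a - 1 - i) (by omega)
    rw [← ha _ (by omega), ← hφ (par^[a - 1 - i] w) (by omega)]
    exact hne
  · intro δ b a h4 h5 h6 h7 h8 h9
    obtain ⟨i, hi, hne⟩ := h3 δ b a h4 h5 h6 h7 h8 h9
    refine ⟨i, hi, ?_⟩
    rw [← ha _ (by omega), ← ha _ (by omega)]
    exact hne

open Classical in
/-- the set of distances from `v` of light ancestors (of vertices below `v` by a light edge) -/
noncomputable def EE (par : V → V) (dep rk : V → ℕ) (v : V) : Finset ℕ :=
  insert 0 ((Finset.range (dep v + 1)).filter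
    (fun e => 1 ≤ e ∧ rk (par^[e - 1] v) < rk (par^[e] v)))

lemma EE_card (hRT : RT par dep rk) (R : ℕ) (hR : ∀ v, rk v ≤ R) (v : V) :
    (EE par dep rk v).card ≤ R + 1 := by
  classical
  have hmem : ∀ e ∈ EE par dep rk v, e ≤ dep v ∧ (e = 0 ∨ (1 ≤ e ∧
      rk (par^[e - 1] v) < rk (par^[e] v))) := by
    intro e he
    simp only [EE, Finset.mem_insert, Finset.mem_filter, Finset.mem_range] at he
    rcases he with rfl | ⟨h1, h2⟩
    · exact ⟨by omega, Or.inl rfl⟩
    · exact ⟨by omega, Or.inr h2⟩
  have hlt : ∀ e ∈ EE par dep rk v, ∀ e' ∈ EE par dep rk v, e < e' →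
      rk (par^[e] v) < rk (par^[e'] v) := by
    intro e he e' he' hlt
    obtain ⟨h1, h2⟩ := hmem e' he'
    rcases h2 with h2 | h2
    · omega
    · have hd := hRT.dep_anc v e (by omega)
      have h3 := hRT.rk_anc (par^[e] v) (e' - 1 - e) (by omega)
      rw [← Function.iterate_add_apply, show e' - 1 - e + e = e' - 1 by omega] at h3
      omega
  have : (EE par dep rk v).card ≤ (Finset.range (R + 1)).card := by
    apply Finset.card_le_card_of_injOn (fun e => rk (par^[e] v))
    · intro e _
      simp only [Finset.coe_range, Set.mem_Iio]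
      have := hR (par^[e] v)
      omega
    · intro e he e' he' heq
      simp only at heq
      rcases Nat.lt_trichotomy e e' with h | h | h
      · have := hlt e he e' he' h; omega
      · exact h
      · have := hlt e' he' e he h; omega
  simpa using this

/-- the events -/
noncomputable def evt (par : V → V) (dep rk : V → ℕ) (φ : V → α) (v : V) (k u : ℕ)
    (e : ℕ × ℕ × ℕ) (x : ℕ → α) (i : ℕ) : α :=
  if e.1 = 0 then
    (if u + e.2.2 + i ≤ k then x (k - (u + e.2.2 + i)) else φ (par^[u + e.2.2 + i - (k + 1)] v))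
  else if e.1 = 1 then φ ((hc par dep rk)^[e.2.2 + i] (par^[e.2.1] v))
  else φ (par^[e.2.1 + e.2.2 + i] v)

lemma evt_loc (φ : V → α) (v : V) : ∀ k u e (x y : ℕ → α), 1 ≤ u → u ≤ k + 1 →
    (∀ i, i < k + 1 - u → x i = y i) → ∀ i, i < u →
      evt par dep rk φ v k u e x i = evt par dep rk φ v k u e y i := by
  intro k u e x y hu hu2 hxy i hi
  unfold evt
  split_ifs with h1 h2
  · exact hxy _ (by omega)
  · rfl
  · rfl
  · rfl


/-- One more rank level. -/
lemma level_step (hRT : RT par dep rk) (R N : ℕ) (hR : ∀ v, rk v ≤ R) (hN : ∀ v, dep v ≤ N)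
    (L : V → Finset α) (hL : ∀ v, 4 + 2 * (3 * (R + 1) * (2 * kap R + 2)) ≤ (L v).card)
    (ρ : ℕ) (hρ : ρ ≤ R) (φ : V → α)
    (hφ : ∀ l, ρ + 1 ≤ rk l → φ l ∈ L l ∧ Good par dep rk φ (kap (rk l)) l) :
    ∃ φ' : V → α, ∀ l, ρ ≤ rk l → φ' l ∈ L l ∧ Good par dep rk φ' (kap (rk l)) l := by
  classical
  set I : V → ℕ → Finset (ℕ × ℕ × ℕ) := fun v u =>
    Finset.range 3 ×ˢ (EE par dep rk v ×ˢ Finset.range ((2 * kap ρ + 1) * u + 1)) with hI
  have hIcard : ∀ v u, 1 ≤ u → (I v u).card ≤ 3 * (R + 1) * (2 * kap R + 2) * u := by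
    intro v u hu
    simp only [hI, Finset.card_product, Finset.card_range]
    have h1 := EE_card hRT R hR v
    have h2 := kap_mono hρ
    have h3 : (2 * kap ρ + 1) * u + 1 ≤ (2 * kap R + 2) * u := by nlinarith
    calc 3 * ((EE par dep rk v).card * ((2 * kap ρ + 1) * u + 1))
        ≤ 3 * ((R + 1) * ((2 * kap R + 2) * u)) :=
          Nat.mul_le_mul_left _ (Nat.mul_le_mul h1 h3)
      _ = 3 * (R + 1) * (2 * kap R + 2) * u := by ring
  have hcore : ∀ c : V, ∃ x : ℕ → α, ∀ k, k < N + 1 →
      x k ∈ L ((hc par dep rk)^[k] c) ∧ OKat (I (par c)) (evt par dep rk φ (par c)) k x := by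
    intro c
    exact core (fun k => L ((hc par dep rk)^[k] c)) (I (par c)) (evt par dep rk φ (par c))
      (evt_loc φ (par c)) _ (hIcard (par c)) (fun n => hL _) (N + 1)
  choose X hX using hcore
  set φ' : V → α := fun l => if rk l = ρ then X (top par dep rk l) (idx par dep rk l) else φ l
    with hφ'
  have hagree : ∀ v, ρ + 1 ≤ rk v → φ v = φ' v := by
    intro v hv
    simp only [hφ']
    rw [if_neg (by omega)]
  refine ⟨φ', ?_⟩
  intro l hl
  rcases Nat.lt_or_ge ρ (rk l) with hlt | hge
  · obtain ⟨h1, h2⟩ := hφ l hlt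
    refine ⟨?_, Good_congr hRT φ φ' (ρ + 1) _ hagree l hlt h2⟩
    rw [← hagree l hlt]; exact h1
  have hrl : rk l = ρ := by omega
  set c := top par dep rk l with hcdef
  set j := idx par dep rk l with hjdef
  set v := par c with hvdef
  have hjle : j ≤ dep l := idx_le par dep rk l
  have hc1 : c = par^[j] l := rfl
  have hdc : dep c + j = dep l := hRT.dep_anc l j hjle
  obtain ⟨hXm, hXok⟩ := hX c j (by have := hN l; omega)
  have hin : ∀ i, i ≤ j → φ' (par^[i] l) = X c (j - i) := by
    intro i hi
    have h1 := idx_rk hRT l i hi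
    simp only [hφ']
    rw [if_pos (by omega), top_anc hRT l i hi, idx_anc hRT l i hi]
  have hout : ∀ i, j < i → i ≤ dep l → φ' (par^[i] l) = φ (par^[i - (j + 1)] v) := by
    intro i hi hi2
    have h1 : par^[i] l = par^[i - (j + 1)] v := by
      rw [hvdef, hc1, ← Function.iterate_succ_apply' par, ← Function.iterate_add_apply]
      congr 1
      omega
    have hsp := idx_spec par dep rk l
    have h2 : rk l < rk (par^[j + 1] l) := by
      rcases hsp with h | h
      · omega
      · exact h.2
    have hd := hRT.dep_anc l (j + 1) (by omega)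
    have h3 := hRT.rk_anc (par^[j + 1] l) (i - (j + 1)) (by omega)
    rw [← Function.iterate_add_apply, show i - (j + 1) + (j + 1) = i by omega] at h3
    rw [← h1]
    exact (hagree _ (by omega)).symm
  have hvpar : ∀ i, par^[i + (j + 1)] l = par^[i] v := by
    intro i
    rw [hvdef, hc1, ← Function.iterate_succ_apply' par, ← Function.iterate_add_apply]
  -- rank of v is bigger when it exists
  have hrv : dep c ≠ 0 → ρ < rk v := by
    intro hd
    have hsp := idx_spec par dep rk l
    have h0 := hvpar 0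
    rw [zero_add, Function.iterate_zero, id] at h0
    rcases hsp with h | h
    · omega
    · rw [← h0, ← hrl]; exact h.2
  have hdv : dep c ≠ 0 → dep v + 1 = dep c := fun hd => hRT.dep_par c hd
  have hgoodv : dep c ≠ 0 → Good par dep rk φ (kap (rk v)) v := fun hd => (hφ v (hrv hd)).2
  refine ⟨?_, ?_⟩
  · have := hin 0 (by omega)
    rw [Function.iterate_zero, id, Nat.sub_zero] at this
    rw [this]
    have h2 := hc_top hRT l
    rw [← hcdef, ← hjdef] at h2
    rw [h2] at hXm
    exact hXm
  rw [hrl]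
  -- the three families of events
  have hev0 : ∀ u τ, 1 ≤ u → u ≤ j + 1 → τ ≤ (2 * kap ρ + 1) * u →
      ∃ i, i < u ∧ X c (j - i) ≠ (if u + τ + i ≤ j then X c (j - (u + τ + i)) else
        φ (par^[u + τ + i - (j + 1)] v)) := by
    intro u τ hu1 hu2 hτ
    obtain ⟨i, hi, hne⟩ := hXok u hu1 hu2 (0, 0, τ) (by
      simp only [hI, Finset.mem_product, Finset.mem_range]
      exact ⟨by omega, by simp [EE], by omega⟩)
    refine ⟨i, hi, ?_⟩
    simpa [evt] using hne
  have hev1 : ∀ u e σ, 1 ≤ u → u ≤ j + 1 → e ∈ EE par dep rk v → σ ≤ (2 * kap ρ + 1) * u →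
      ∃ i, i < u ∧ X c (j - i) ≠ φ ((hc par dep rk)^[σ + i] (par^[e] v)) := by
    intro u e τ hu1 hu2 he hτ
    obtain ⟨i, hi, hne⟩ := hXok u hu1 hu2 (1, e, τ) (by
      simp only [hI, Finset.mem_product, Finset.mem_range]
      exact ⟨by omega, he, by omega⟩)
    refine ⟨i, hi, ?_⟩
    simpa [evt] using hne
  have hev2 : ∀ u e a, 1 ≤ u → u ≤ j + 1 → e ∈ EE par dep rk v → a ≤ (2 * kap ρ + 1) * u →
      ∃ i, i < u ∧ X c (j - i) ≠ φ (par^[e + a + i] v) := by
    intro u e τ hu1 hu2 he hτ
    obtain ⟨i, hi, hne⟩ := hXok u hu1 hu2 (2, e, τ) (by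
      simp only [hI, Finset.mem_product, Finset.mem_range]
      exact ⟨by omega, he, by omega⟩)
    refine ⟨i, hi, ?_⟩
    simpa [evt] using hne
  -- membership in EE of distances of light ancestors
  have hEE : ∀ δ, 1 ≤ δ → δ ≤ dep l → rk (par^[δ - 1] l) < rk (par^[δ] l) →
      j + 1 ≤ δ ∧ δ - (j + 1) ∈ EE par dep rk v ∧ dep c ≠ 0 := by
    intro δ hδ1 hδ2 hlight
    have h1 : j + 1 ≤ δ := by
      by_contra hcon
      have h1 := idx_rk hRT l (δ - 1) (by omega)
      have h2 := idx_rk hRT l δ (by omega)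
      omega
    refine ⟨h1, ?_, by omega⟩
    simp only [EE, Finset.mem_insert, Finset.mem_filter, Finset.mem_range]
    rcases Nat.eq_zero_or_pos (δ - (j + 1)) with h | h
    · left; exact h
    · right
      have hd := hdv (by omega)
      refine ⟨by omega, h, ?_⟩
      rw [← hvpar, ← hvpar, show δ - (j + 1) - 1 + (j + 1) = δ - 1 by omega,
        show δ - (j + 1) + (j + 1) = δ by omega]
      exact hlight
  refine ⟨?_, ?_, ?_⟩
  · -- CP
    intro u ζ hu hζ hlen
    rcases Nat.lt_or_ge (2 * (j + 1)) (u + 1) with hbig | hsmall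
    · -- from v
      have hd : dep c ≠ 0 := by omega
      have hdv' := hdv hd
      obtain ⟨h1, _, _⟩ := hgoodv hd
      have hk := kap_lt (hrv hd)
      obtain ⟨i, hi, hne⟩ := h1 (u - (j + 1)) (ζ + (j + 1)) (by omega) (by
        have e1 : kap ρ * u + (j + 1) ≤ (2 * kap ρ + 1) * (u - (j + 1)) := by
          obtain ⟨w, hw⟩ : ∃ w, u = 2 * (j + 1) + w := ⟨u - 2 * (j + 1), by omega⟩
          have : u - (j + 1) = (j + 1) + w := by omega
          rw [this, hw]
          nlinarith
        calc ζ + (j + 1) ≤ kap ρ * u + (j + 1) := by omega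
          _ ≤ (2 * kap ρ + 1) * (u - (j + 1)) := e1
          _ ≤ kap (rk v) * (u - (j + 1)) := Nat.mul_le_mul_right _ hk) (by omega)
      refine ⟨i + (j + 1), by omega, ?_⟩
      rw [hout _ (by omega) (by omega), hout _ (by omega) (by omega)]
      rw [show i + (j + 1) - (j + 1) = i by omega,
        show u + ζ + (i + (j + 1)) - (j + 1) = u - (j + 1) + (ζ + (j + 1)) + i by omega]
      exact hne
    · rcases Nat.lt_or_ge (j + 1) u with hmid | hlow
      · -- word length j + 1
        obtain ⟨i, hi, hne⟩ := hev0 (j + 1) (ζ + (u - (j + 1))) (by omega) le_rfl (by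
          have : kap ρ * u ≤ kap ρ * (2 * (j + 1)) := Nat.mul_le_mul_left _ (by omega)
          nlinarith [Nat.sub_add_cancel (le_of_lt hmid)])
        refine ⟨i, by omega, ?_⟩
        rw [if_neg (by omega)] at hne
        rw [hin i (by omega), hout _ (by omega) (by omega)]
        rw [show j + 1 + (ζ + (u - (j + 1))) + i - (j + 1) = u + ζ + i - (j + 1) by omega] at hne
        exact hne
      · obtain ⟨i, hi, hne⟩ := hev0 u ζ hu hlow (by nlinarith)
        refine ⟨i, hi, ?_⟩
        rw [hin i (by omega)]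
        by_cases hcs : u + ζ + i ≤ j
        · rw [if_pos hcs] at hne
          rw [hin _ hcs]
          exact hne
        · rw [if_neg hcs] at hne
          rw [hout _ (by omega) (by omega)]
          exact hne
  · -- (I)
    intro δ a σ w ha1 haδ hδ hlight hσ1 hσ2 hdw hpw hrw
    obtain ⟨hjδ, hE, hd⟩ := hEE δ (by omega) hδ hlight
    have hdv' := hdv hd
    have hdz := hRT.dep_anc l δ hδ
    have hz : par^[δ - (j + 1)] v = par^[δ] l := by
      rw [← hvpar, show δ - (j + 1) + (j + 1) = δ by omega]
    have hhc : ∀ i, i < a → (hc par dep rk)^[σ + i] (par^[δ] l) = par^[a - 1 - i] w := by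
      intro i hi
      have := hc_iter hRT w (σ + a - 1) (by omega) (by rw [hpw]; exact hrw) (σ + i) (by omega)
      rw [hpw, show σ + a - 1 - (σ + i) = a - 1 - i by omega] at this
      exact this
    have hwagree : ∀ i, i < a → φ' (par^[a - 1 - i] w) = φ (par^[a - 1 - i] w) := by
      intro i hi
      have h1 := hRT.rk_anc w (a - 1 - i) (by omega)
      have h2 := hRT.rk_anc l (δ - 1) (by omega)
      exact (hagree _ (by omega)).symm
    rcases Nat.lt_or_ge (2 * (j + 1)) (a + 1) with hbig | hsmall
    · obtain ⟨_, h2, _⟩ := hgoodv hd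
      have hk := kap_lt (hrv hd)
      obtain ⟨i, hi, hne⟩ := h2 (δ - (j + 1)) (a - (j + 1)) (σ + (j + 1)) w (by omega) (by omega)
        (by omega) (by
          rw [hz, ← hvpar, show δ - (j + 1) - 1 + (j + 1) = δ - 1 by omega]
          exact hlight) (by omega) (by
          have e1 : kap ρ * a + (j + 1) ≤ (2 * kap ρ + 1) * (a - (j + 1)) := by
            obtain ⟨w', hw'⟩ : ∃ w', a = 2 * (j + 1) + w' := ⟨a - 2 * (j + 1), by omega⟩
            have : a - (j + 1) = (j + 1) + w' := by omega
            rw [this, hw']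
            nlinarith
          calc σ + (j + 1) ≤ kap ρ * a + (j + 1) := by omega
            _ ≤ (2 * kap ρ + 1) * (a - (j + 1)) := e1
            _ ≤ kap (rk v) * (a - (j + 1)) := Nat.mul_le_mul_right _ hk)
        (by rw [hz, hdw]; omega)
        (by rw [hz, ← hpw]; congr 1; omega) (by rw [hz]; exact hrw)
      refine ⟨i + (j + 1), by omega, ?_⟩
      rw [hout _ (by omega) (by omega), hwagree _ (by omega)]
      rw [show i + (j + 1) - (j + 1) = i by omega,
        show a - 1 - (i + (j + 1)) = a - (j + 1) - 1 - i by omega]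
      exact hne
    · rcases Nat.lt_or_ge (j + 1) a with hmid | hlow
      · obtain ⟨i, hi, hne⟩ := hev1 (j + 1) _ σ (by omega) le_rfl hE (by
          have : kap ρ * a ≤ kap ρ * (2 * (j + 1)) := Nat.mul_le_mul_left _ (by omega)
          nlinarith)
        refine ⟨i, by omega, ?_⟩
        rw [hin i (by omega), hwagree i (by omega), ← hhc i (by omega), ← hz]
        exact hne
      · obtain ⟨i, hi, hne⟩ := hev1 a _ σ ha1 hlow hE (by nlinarith)
        refine ⟨i, hi, ?_⟩
        rw [hin i (by omega), hwagree i hi, ← hhc i hi, ← hz]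
        exact hne
  · -- (II)
    intro δ b a hb1 hbδ hδ hlight ha hlen
    obtain ⟨hjδ, hE, hd⟩ := hEE δ (by omega) hδ hlight
    have hdv' := hdv hd
    have hz : par^[δ - (j + 1)] v = par^[δ] l := by
      rw [← hvpar, show δ - (j + 1) + (j + 1) = δ by omega]
    rcases Nat.lt_or_ge (2 * (j + 1)) (b + 1) with hbig | hsmall
    · obtain ⟨_, _, h3⟩ := hgoodv hd
      have hk := kap_lt (hrv hd)
      obtain ⟨i, hi, hne⟩ := h3 (δ - (j + 1)) (b - (j + 1)) (a + (j + 1)) (by omega) (by omega)
        (by omega) (by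
          rw [hz, ← hvpar, show δ - (j + 1) - 1 + (j + 1) = δ - 1 by omega]
          exact hlight) (by
          have e1 : kap ρ * b + (j + 1) ≤ (2 * kap ρ + 1) * (b - (j + 1)) := by
            obtain ⟨w', hw'⟩ : ∃ w', b = 2 * (j + 1) + w' := ⟨b - 2 * (j + 1), by omega⟩
            have : b - (j + 1) = (j + 1) + w' := by omega
            rw [this, hw']
            nlinarith
          calc a + (j + 1) ≤ kap ρ * b + (j + 1) := by omega
            _ ≤ (2 * kap ρ + 1) * (b - (j + 1)) := e1
            _ ≤ kap (rk v) * (b - (j + 1)) := Nat.mul_le_mul_right _ hk) (by omega)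
      refine ⟨i + (j + 1), by omega, ?_⟩
      rw [hout _ (by omega) (by omega), hout _ (by omega) (by omega)]
      rw [show i + (j + 1) - (j + 1) = i by omega,
        show δ + a + (i + (j + 1)) - (j + 1) = δ - (j + 1) + (a + (j + 1)) + i by omega]
      exact hne
    · rcases Nat.lt_or_ge (j + 1) b with hmid | hlow
      · obtain ⟨i, hi, hne⟩ := hev2 (j + 1) _ a (by omega) le_rfl hE (by
          have : kap ρ * b ≤ kap ρ * (2 * (j + 1)) := Nat.mul_le_mul_left _ (by omega)
          nlinarith)
        refine ⟨i, by omega, ?_⟩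
        rw [hin i (by omega), hout _ (by omega) (by omega)]
        rw [show δ + a + i - (j + 1) = δ - (j + 1) + a + i by omega]
        exact hne
      · obtain ⟨i, hi, hne⟩ := hev2 b _ a hb1 hlow hE (by nlinarith)
        refine ⟨i, hi, ?_⟩
        rw [hin i (by omega), hout _ (by omega) (by omega)]
        rw [show δ + a + i - (j + 1) = δ - (j + 1) + a + i by omega]
        exact hne

/-- Existence of a good colouring. -/
theorem exists_good (hRT : RT par dep rk) (R N : ℕ) (hR : ∀ v, rk v ≤ R) (hN : ∀ v, dep v ≤ N)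
    (L : V → Finset α) (hL : ∀ v, 4 + 2 * (3 * (R + 1) * (2 * kap R + 2)) ≤ (L v).card) :
    ∃ φ : V → α, ∀ l, φ l ∈ L l ∧ Good par dep rk φ (kap (rk l)) l := by
  have hne : ∀ v, ∃ a, a ∈ L v := by
    intro v
    apply Finset.Nonempty.exists_mem
    rw [← Finset.card_pos]
    have := hL v
    omega
  have key : ∀ m, m ≤ R + 1 → ∃ φ : V → α, ∀ l, R + 1 - m ≤ rk l →
      φ l ∈ L l ∧ Good par dep rk φ (kap (rk l)) l := by
    intro m
    induction m with
    | zero =>
      intro _
      choose φ hφ using hne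
      refine ⟨φ, fun l hl => ?_⟩
      have := hR l
      omega
    | succ m ih =>
      intro hm
      obtain ⟨φ, hφ⟩ := ih (by omega)
      refine level_step hRT R N hR hN L hL (R + 1 - (m + 1)) (by omega) φ ?_
      intro l hl
      exact hφ l (by omega)
  obtain ⟨φ, hφ⟩ := key (R + 1) le_rfl
  exact ⟨φ, fun l => hφ l (by omega)⟩

end Exist


section Rank

variable {V : Type*} {par : V → V} {dep : V → ℕ}

/-- `u` is a descendant of `v` (or equal). -/
def Desc (par : V → V) (dep : V → ℕ) (u v : V) : Prop := ∃ i, i ≤ dep u ∧ par^[i] u = v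

lemma Desc.refl (v : V) : Desc par dep v v := ⟨0, by omega, rfl⟩

lemma dep_anc' (hdp : ∀ v, dep v ≠ 0 → dep (par v) + 1 = dep v) (v : V) (i : ℕ)
    (hi : i ≤ dep v) : dep (par^[i] v) + i = dep v := by
  induction i with
  | zero => simp
  | succ i ih =>
    have h1 := ih (by omega)
    rw [Function.iterate_succ_apply']
    have := hdp (par^[i] v) (by omega)
    omega

lemma Desc.trans (hdp : ∀ v, dep v ≠ 0 → dep (par v) + 1 = dep v) {u v w : V}
    (h1 : Desc par dep u v) (h2 : Desc par dep v w) : Desc par dep u w := by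
  obtain ⟨i, hi, rfl⟩ := h1
  obtain ⟨j, hj, rfl⟩ := h2
  have := dep_anc' hdp u i hi
  exact ⟨j + i, by omega, by rw [Function.iterate_add_apply]⟩

lemma Desc.dep_le (hdp : ∀ v, dep v ≠ 0 → dep (par v) + 1 = dep v) {u v : V}
    (h : Desc par dep u v) : dep v ≤ dep u := by
  obtain ⟨i, hi, rfl⟩ := h
  have := dep_anc' hdp u i hi
  omega

lemma Desc.eq_of_dep (hdp : ∀ v, dep v ≠ 0 → dep (par v) + 1 = dep v) {u v w : V}
    (h1 : Desc par dep u v) (h2 : Desc par dep u w) (h : dep v = dep w) : v = w := by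
  obtain ⟨i, hi, rfl⟩ := h1
  obtain ⟨j, hj, rfl⟩ := h2
  have h3 := dep_anc' hdp u i hi
  have h4 := dep_anc' hdp u j hj
  have : i = j := by omega
  rw [this]

lemma Desc.comparable {u v w : V}
    (h1 : Desc par dep u v) (h2 : Desc par dep u w)
    (hdp : ∀ v, dep v ≠ 0 → dep (par v) + 1 = dep v) :
    Desc par dep v w ∨ Desc par dep w v := by
  obtain ⟨i, hi, rfl⟩ := h1
  obtain ⟨j, hj, rfl⟩ := h2
  have h3 := dep_anc' hdp u i hi
  have h4 := dep_anc' hdp u j hj
  rcases le_total i j with h | h
  · left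
    refine ⟨j - i, by omega, ?_⟩
    rw [← Function.iterate_add_apply]
    congr 1; omega
  · right
    refine ⟨i - j, by omega, ?_⟩
    rw [← Function.iterate_add_apply]
    congr 1; omega

variable {m : ℕ} (B : Fin m → Finset V)

lemma chain_left (hint : ∀ v i j k, i ≤ j → j ≤ k → v ∈ B i → v ∈ B k → v ∈ B j)
    (hedge : ∀ v, dep v ≠ 0 → ∃ i, v ∈ B i ∧ par v ∈ B i)
    (hdp : ∀ v, dep v ≠ 0 → dep (par v) + 1 = dep v) (a : V) (i2 : Fin m)
    (h0 : ∃ i1, i1 ≤ i2 ∧ a ∈ B i1) : ∀ J, J ≤ dep a → (∀ j, j ≤ J → par^[j] a ∉ B i2) →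
      ∀ i, par^[J] a ∈ B i → i < i2 := by
  intro J
  induction J with
  | zero =>
    intro _ hno i hi
    obtain ⟨i1, h1, h2⟩ := h0
    by_contra hc
    exact hno 0 le_rfl (hint a i1 i2 i h1 (not_lt.mp hc) h2 hi)
  | succ J ih =>
    intro hJ hno i hi
    have h1 := ih (by omega) (fun j hj => hno j (by omega))
    have hd := dep_anc' hdp a J (by omega)
    obtain ⟨k, hk1, hk2⟩ := hedge (par^[J] a) (by omega)
    rw [← Function.iterate_succ_apply' par] at hk2
    have hk3 := h1 k hk1
    by_contra hc
    exact hno (J + 1) le_rfl (hint _ k i2 i hk3.le (not_lt.mp hc) hk2 hi)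

lemma chain_right (hint : ∀ v i j k, i ≤ j → j ≤ k → v ∈ B i → v ∈ B k → v ∈ B j)
    (hedge : ∀ v, dep v ≠ 0 → ∃ i, v ∈ B i ∧ par v ∈ B i)
    (hdp : ∀ v, dep v ≠ 0 → dep (par v) + 1 = dep v) (a : V) (i2 : Fin m)
    (h0 : ∃ i3, i2 ≤ i3 ∧ a ∈ B i3) : ∀ J, J ≤ dep a → (∀ j, j ≤ J → par^[j] a ∉ B i2) →
      ∀ i, par^[J] a ∈ B i → i2 < i := by
  intro J
  induction J with
  | zero =>
    intro _ hno i hi
    obtain ⟨i1, h1, h2⟩ := h0
    by_contra hc
    exact hno 0 le_rfl (hint a i i2 i1 (not_lt.mp hc) h1 hi h2)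
  | succ J ih =>
    intro hJ hno i hi
    have h1 := ih (by omega) (fun j hj => hno j (by omega))
    have hd := dep_anc' hdp a J (by omega)
    obtain ⟨k, hk1, hk2⟩ := hedge (par^[J] a) (by omega)
    rw [← Function.iterate_succ_apply' par] at hk2
    have hk3 := h1 k hk1
    by_contra hc
    exact hno (J + 1) le_rfl (hint _ i i2 k (not_lt.mp hc) hk3.le hi hk2)

open Classical in
/-- number of descendants of `v` in bag `i` -/
noncomputable def cov (par : V → V) (dep : V → ℕ) (B : Fin m → Finset V) (v : V) (i : Fin m) : ℕ :=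
  ((B i).filter (fun u => Desc par dep u v)).card

/-- the maximal cover -/
noncomputable def gg (par : V → V) (dep : V → ℕ) (B : Fin m → Finset V) (v : V) : ℕ :=
  Finset.univ.sup (fun i => cov par dep B v i)

lemma cov_le_gg (v : V) (i : Fin m) : cov par dep B v i ≤ gg par dep B v :=
  Finset.le_sup (f := fun i => cov par dep B v i) (Finset.mem_univ i)

lemma gg_attained (v : V) (i0 : Fin m) : ∃ i, cov par dep B v i = gg par dep B v := by
  obtain ⟨i, _, hi⟩ := Finset.exists_mem_eq_sup Finset.univ ⟨i0, Finset.mem_univ _⟩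
    (fun i => cov par dep B v i)
  exact ⟨i, hi.symm⟩

lemma gg_pos (v : V) (hcov : ∃ i, v ∈ B i) : 1 ≤ gg par dep B v := by
  classical
  obtain ⟨i, hi⟩ := hcov
  refine le_trans ?_ (cov_le_gg B v i)
  unfold cov
  rw [Nat.one_le_iff_ne_zero, ← Nat.pos_iff_ne_zero, Finset.card_pos]
  exact ⟨v, Finset.mem_filter.mpr ⟨hi, Desc.refl v⟩⟩

lemma gg_mono (hdp : ∀ v, dep v ≠ 0 → dep (par v) + 1 = dep v) {x v : V}
    (h : Desc par dep x v) : gg par dep B x ≤ gg par dep B v := by
  classical
  apply Finset.sup_mono_fun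
  intro i _
  unfold cov
  apply Finset.card_le_card
  intro u hu
  rw [Finset.mem_filter] at hu ⊢
  exact ⟨hu.1, hu.2.trans hdp h⟩

lemma gg_le (θ : ℕ) (hB : ∀ i, (B i).card ≤ θ + 1) (v : V) : gg par dep B v ≤ θ + 1 := by
  classical
  apply Finset.sup_le
  intro i _
  unfold cov
  exact le_trans (Finset.card_filter_le _ _) (hB i)

lemma mid (hint : ∀ v i j k, i ≤ j → j ≤ k → v ∈ B i → v ∈ B k → v ∈ B j)
    (hedge : ∀ v, dep v ≠ 0 → ∃ i, v ∈ B i ∧ par v ∈ B i)
    (hdp : ∀ v, dep v ≠ 0 → dep (par v) + 1 = dep v) (hcov : ∀ v, ∃ i, v ∈ B i)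
    (v u1 u2 u3 : V) (h1 : Desc par dep u1 v) (h2 : Desc par dep u2 v) (h3 : Desc par dep u3 v)
    (h12 : ¬ Desc par dep u1 u2) (h21 : ¬ Desc par dep u2 u1)
    (h32 : ¬ Desc par dep u3 u2) (h23 : ¬ Desc par dep u2 u3)
    (g2 : gg par dep B u2 = gg par dep B v)
    (i1 i2 i3 : Fin m) (c1 : 1 ≤ cov par dep B u1 i1) (c2 : cov par dep B u2 i2 = gg par dep B u2)
    (c3 : 1 ≤ cov par dep B u3 i3) (hi12 : i1 ≤ i2) (hi23 : i2 ≤ i3) : False := by
  classical
  obtain ⟨a1, ha1⟩ := Finset.card_pos.mp (show 0 < _ from c1)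
  obtain ⟨a3, ha3⟩ := Finset.card_pos.mp (show 0 < _ from c3)
  rw [Finset.mem_filter] at ha1 ha3
  have hgen : ∀ (u a : V), Desc par dep u v → ¬ Desc par dep u u2 → ¬ Desc par dep u2 u →
      Desc par dep a u → ∀ j, j ≤ dep a → ¬ Desc par dep (par^[j] a) u2 := by
    intro u a hu n1 n2 hau j hj hcon
    have hau2 : Desc par dep a u2 := Desc.trans hdp ⟨j, hj, rfl⟩ hcon
    rcases Desc.comparable hau hau2 hdp with h | h
    · exact n1 h
    · exact n2 h
  have hkey : ∃ u, Desc par dep u v ∧ ¬ Desc par dep u u2 ∧ u ∈ B i2 := by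
    by_contra hcon
    push Not at hcon
    obtain ⟨J1, hJ1, hJv1⟩ := ha1.2.trans hdp h1
    obtain ⟨J3, hJ3, hJv3⟩ := ha3.2.trans hdp h3
    have hno1 : ∀ j, j ≤ J1 → par^[j] a1 ∉ B i2 := by
      intro j hj
      refine hcon _ ?_ (hgen u1 a1 h1 h12 h21 ha1.2 j (by omega))
      have hd := dep_anc' hdp a1 j (by omega)
      refine ⟨J1 - j, by omega, ?_⟩
      rw [← Function.iterate_add_apply, Nat.sub_add_cancel hj, hJv1]
    have hno3 : ∀ j, j ≤ J3 → par^[j] a3 ∉ B i2 := by
      intro j hj
      refine hcon _ ?_ (hgen u3 a3 h3 h32 h23 ha3.2 j (by omega))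
      have hd := dep_anc' hdp a3 j (by omega)
      refine ⟨J3 - j, by omega, ?_⟩
      rw [← Function.iterate_add_apply, Nat.sub_add_cancel hj, hJv3]
    have hA := chain_left B hint hedge hdp a1 i2 ⟨i1, hi12, ha1.1⟩ J1 hJ1 hno1
    have hC := chain_right B hint hedge hdp a3 i2 ⟨i3, hi23, ha3.1⟩ J3 hJ3 hno3
    rw [hJv1] at hA
    rw [hJv3] at hC
    obtain ⟨i, hi⟩ := hcov v
    exact absurd (hA i hi) (not_lt.mpr (hC i hi).le)
  obtain ⟨u, hu1, hu2, hu3⟩ := hkey
  have hlt : cov par dep B u2 i2 < cov par dep B v i2 := by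
    unfold cov
    apply Finset.card_lt_card
    rw [Finset.ssubset_iff_of_subset]
    · exact ⟨u, Finset.mem_filter.mpr ⟨hu3, hu1⟩, fun h => hu2 (Finset.mem_filter.mp h).2⟩
    · intro w hw
      rw [Finset.mem_filter] at hw ⊢
      exact ⟨hw.1, hw.2.trans hdp h2⟩
  have := cov_le_gg (par := par) (dep := dep) B v i2
  omega

lemma three (hint : ∀ v i j k, i ≤ j → j ≤ k → v ∈ B i → v ∈ B k → v ∈ B j)
    (hedge : ∀ v, dep v ≠ 0 → ∃ i, v ∈ B i ∧ par v ∈ B i)
    (hdp : ∀ v, dep v ≠ 0 → dep (par v) + 1 = dep v) (hcov : ∀ v, ∃ i, v ∈ B i)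
    (v u1 u2 u3 : V) (h1 : Desc par dep u1 v) (h2 : Desc par dep u2 v) (h3 : Desc par dep u3 v)
    (h12 : ¬ Desc par dep u1 u2) (h21 : ¬ Desc par dep u2 u1)
    (h32 : ¬ Desc par dep u3 u2) (h23 : ¬ Desc par dep u2 u3)
    (h13 : ¬ Desc par dep u1 u3) (h31 : ¬ Desc par dep u3 u1)
    (g1 : gg par dep B u1 = gg par dep B v)
    (g2 : gg par dep B u2 = gg par dep B v) (g3 : gg par dep B u3 = gg par dep B v) : False := by
  obtain ⟨i0, _⟩ := hcov v
  obtain ⟨i1, c1⟩ := gg_attained (par := par) (dep := dep) B u1 i0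
  obtain ⟨i2, c2⟩ := gg_attained (par := par) (dep := dep) B u2 i0
  obtain ⟨i3, c3⟩ := gg_attained (par := par) (dep := dep) B u3 i0
  have p1 := gg_pos (par := par) (dep := dep) B u1 (hcov u1)
  have p2 := gg_pos (par := par) (dep := dep) B u2 (hcov u2)
  have p3 := gg_pos (par := par) (dep := dep) B u3 (hcov u3)
  rcases le_total i1 i2 with a | a
  · rcases le_total i2 i3 with b | b
    · exact mid B hint hedge hdp hcov v u1 u2 u3 h1 h2 h3 h12 h21 h32 h23 g2 i1 i2 i3
        (by omega) c2 (by omega) a b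
    · rcases le_total i1 i3 with c | c
      · exact mid B hint hedge hdp hcov v u1 u3 u2 h1 h3 h2 h13 h31 h23 h32 g3 i1 i3 i2
          (by omega) c3 (by omega) c b
      · exact mid B hint hedge hdp hcov v u3 u1 u2 h3 h1 h2 h31 h13 h21 h12 g1 i3 i1 i2
          (by omega) c1 (by omega) c a
  · rcases le_total i1 i3 with b | b
    · exact mid B hint hedge hdp hcov v u2 u1 u3 h2 h1 h3 h21 h12 h31 h13 g1 i2 i1 i3
        (by omega) c1 (by omega) a b
    · rcases le_total i2 i3 with c | c
      · exact mid B hint hedge hdp hcov v u2 u3 u1 h2 h3 h1 h23 h32 h13 h31 g3 i2 i3 i1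
          (by omega) c3 (by omega) c b
      · exact mid B hint hedge hdp hcov v u3 u2 u1 h3 h2 h1 h32 h23 h12 h21 g2 i3 i2 i1
          (by omega) c2 (by omega) c a

/-- branching -/
def Br (par : V → V) (dep : V → ℕ) (B : Fin m → Finset V) (v : V) : Prop :=
  ∃ b x y, Desc par dep b v ∧ x ≠ y ∧ dep x ≠ 0 ∧ dep y ≠ 0 ∧ par x = b ∧ par y = b ∧
    gg par dep B x = gg par dep B v ∧ gg par dep B y = gg par dep B v

open Classical in
/-- the rank -/
noncomputable def rank (par : V → V) (dep : V → ℕ) (B : Fin m → Finset V) (v : V) : ℕ :=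
  2 * gg par dep B v + if Br par dep B v then 1 else 0

lemma desc_par {x : V} (hx : dep x ≠ 0) : Desc par dep x (par x) := ⟨1, by omega, rfl⟩

theorem rank_RT (hint : ∀ v i j k, i ≤ j → j ≤ k → v ∈ B i → v ∈ B k → v ∈ B j)
    (hedge : ∀ v, dep v ≠ 0 → ∃ i, v ∈ B i ∧ par v ∈ B i)
    (hdp : ∀ v, dep v ≠ 0 → dep (par v) + 1 = dep v) (hcov : ∀ v, ∃ i, v ∈ B i) :
    RT par dep (rank par dep B) := by
  classical
  refine ⟨hdp, ?_, ?_⟩
  · intro v hv
    have h1 := gg_mono B hdp (desc_par (par := par) hv)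
    rcases h1.lt_or_eq with h | h
    · unfold rank
      split_ifs <;> omega
    · have hbr : Br par dep B v → Br par dep B (par v) := by
        rintro ⟨b, x, y, hb, hxy, h2, h3, h4, h5, h6, h7⟩
        exact ⟨b, x, y, hb.trans hdp (desc_par hv), hxy, h2, h3, h4, h5, by rw [h6, h],
          by rw [h7, h]⟩
      unfold rank
      split_ifs with c1 c2
      · omega
      · exact absurd (hbr c1) c2
      · omega
      · omega
  · intro x y hx hy hpar hrx hry
    by_contra hne
    have hgx : gg par dep B x = gg par dep B (par x) := by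
      unfold rank at hrx
      split_ifs at hrx <;> omega
    have hgy : gg par dep B y = gg par dep B (par x) := by
      unfold rank at hry
      rw [← hpar] at hry
      split_ifs at hry <;> omega
    have hBv : Br par dep B (par x) :=
      ⟨par x, x, y, Desc.refl _, hne, hx, hy, rfl, hpar.symm, hgx, hgy⟩
    have hBx : Br par dep B x := by
      by_contra hcon
      unfold rank at hrx
      rw [if_neg hcon, if_pos hBv] at hrx
      omega
    obtain ⟨b, x', y', hb, hxy, h2, h3, h4, h5, h6, h7⟩ := hBx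
    have d1 := hdp x hx
    have d2 := hdp y hy
    have d3 := hdp x' h2
    have d4 := hdp y' h3
    rw [h4] at d3
    rw [h5] at d4
    rw [← hpar] at d2
    have db := hb.dep_le hdp
    have hx'b : Desc par dep x' b := by rw [← h4]; exact desc_par h2
    have hy'b : Desc par dep y' b := by rw [← h5]; exact desc_par h3
    have hx'x := hx'b.trans hdp hb
    have hy'x := hy'b.trans hdp hb
    have hxv : Desc par dep x (par x) := desc_par hx
    have hyv : Desc par dep y (par x) := by rw [hpar]; exact desc_par hy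
    refine three B hint hedge hdp hcov (par x) x' y' y (hx'x.trans hdp hxv) (hy'x.trans hdp hxv)
      hyv ?_ ?_ ?_ ?_ ?_ ?_ (by rw [h6, hgx]) (by rw [h7, hgx]) hgy
    · intro h
      exact hxy (Desc.eq_of_dep hdp (Desc.refl x') h (by omega))
    · intro h
      exact hxy (Desc.eq_of_dep hdp (Desc.refl y') h (by omega)).symm
    · intro h
      have := h.dep_le hdp
      omega
    · intro h
      exact hne (Desc.eq_of_dep hdp hy'x h (by omega))
    · intro h
      exact hne (Desc.eq_of_dep hdp hx'x h (by omega))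
    · intro h
      have := h.dep_le hdp
      omega

end Rank



section Tree

variable {V : Type*} (T : SimpleGraph V)

open Classical in
/-- the parent -/
noncomputable def tpar (r : V) (v : V) : V :=
  if h : ∃ u, T.Adj v u ∧ T.dist r u + 1 = T.dist r v then h.choose else v

lemma closer_exists {T : SimpleGraph V} (hT : T.IsTree) (r v : V) (h : T.dist r v ≠ 0) :
    ∃ u, T.Adj v u ∧ T.dist r u + 1 = T.dist r v := by
  obtain ⟨p, hp, hlen⟩ := (hT.connected r v).exists_path_of_dist
  have hnil : ¬ p.Nil := by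
    intro hn
    rw [← hlen] at h
    exact h (SimpleGraph.Walk.length_eq_zero_iff.mpr hn)
  have hadj : T.Adj p.penultimate v := p.adj_penultimate hnil
  refine ⟨p.penultimate, hadj.symm, ?_⟩
  rcases hT.dist_eq_dist_add_one_of_adj r hadj with h1 | h1
  · exfalso
    have h2 : T.dist r p.penultimate ≤ p.dropLast.length := SimpleGraph.dist_le _
    have h3 : p.dropLast.length + 1 = p.length := by
      have := SimpleGraph.Walk.length_dropLast_add_one hnil
      exact this
    omega
  · omega

lemma not_mem_support_of_dist {T : SimpleGraph V} {r u v : V} (q : T.Walk r u)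
    (hq : q.length = T.dist r u) (h : T.dist r u < T.dist r v) : v ∉ q.support := by
  classical
  intro hv
  have h1 : T.dist r v ≤ (q.takeUntil v hv).length := SimpleGraph.dist_le _
  have h2 := q.length_takeUntil_le_length hv
  omega

lemma closer_unique {T : SimpleGraph V} (hT : T.IsTree) (r v u u' : V) (h : T.Adj v u)
    (h' : T.Adj v u') (hd : T.dist r u + 1 = T.dist r v) (hd' : T.dist r u' + 1 = T.dist r v) :
    u = u' := by
  obtain ⟨p, hp, hlen⟩ := (hT.connected r v).exists_path_of_dist
  have key : ∀ w, T.Adj v w → T.dist r w + 1 = T.dist r v → w = p.penultimate := by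
    intro w hw hdw
    obtain ⟨q, hq, hqlen⟩ := (hT.connected r w).exists_path_of_dist
    have hv : v ∉ q.support := not_mem_support_of_dist q hqlen (by omega)
    have hmem := hT.isAcyclic.mem_support_of_ne_mem_support_of_adj_of_isPath hp hq hw hv
    exact hT.isAcyclic.eq_penultimate_of_adj_end hp hw hmem
  rw [key u h hd, key u' h' hd']

lemma tpar_spec {T : SimpleGraph V} (hT : T.IsTree) (r v : V) (h : T.dist r v ≠ 0) :
    T.Adj v (tpar T r v) ∧ T.dist r (tpar T r v) + 1 = T.dist r v := by
  have hex := closer_exists hT r v h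
  unfold tpar
  rw [dif_pos hex]
  exact hex.choose_spec

lemma tpar_adj {T : SimpleGraph V} (hT : T.IsTree) (r u v : V) (h : T.Adj u v) :
    (T.dist r u ≠ 0 ∧ tpar T r u = v) ∨ (T.dist r v ≠ 0 ∧ tpar T r v = u) := by
  rcases hT.dist_eq_dist_add_one_of_adj r h with h1 | h1
  · left
    have h0 : T.dist r u ≠ 0 := by omega
    obtain ⟨h2, h3⟩ := tpar_spec hT r u h0
    exact ⟨h0, closer_unique hT r u _ _ h2 h h3 h1.symm⟩
  · right
    have h0 : T.dist r v ≠ 0 := by omega
    obtain ⟨h2, h3⟩ := tpar_spec hT r v h0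
    exact ⟨h0, closer_unique hT r v _ _ h2 h.symm h3 h1.symm⟩

end Tree

/-! ### Definitions used in the statement -/

/-- A path-decomposition of `G` of width at most `θ`: a sequence of vertex subsets (bags) such that
both ends of every edge lie in a common bag, the bags containing a fixed vertex have consecutive
indices, and every bag has at most `θ + 1` vertices. -/
def HasPathDecompositionOfWidthLE {V : Type} (G : SimpleGraph V) (θ : ℕ) : Prop :=
  ∃ (m : ℕ) (B : Fin m → Finset V),
    (∀ u v, G.Adj u v → ∃ i, u ∈ B i ∧ v ∈ B i) ∧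
    (∀ v i j k, i ≤ j → j ≤ k → v ∈ B i → v ∈ B k → v ∈ B j) ∧
    (∀ i, (B i).card ≤ θ + 1)

/-- The path-width of `G`: the least width of a path-decomposition. -/
noncomputable def pathWidth {V : Type} (G : SimpleGraph V) : ℕ :=
  sInf {θ | HasPathDecompositionOfWidthLE G θ}

/-- A colouring `f` is nonrepetitive: no path has colour sequence of the form `s ++ s`. -/
def Nonrepetitive {V α : Type} (G : SimpleGraph V) (f : V → α) : Prop :=
  ∀ (x y : V) (p : G.Walk x y), p.IsPath → ∀ s : List α, s ≠ [] → p.support.map f ≠ s ++ s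

/-- `G` is nonrepetitively `c`-choosable. -/
def NonrepetitivelyChoosable {V : Type} (G : SimpleGraph V) (c : ℕ) : Prop :=
  ∀ (α : Type) (L : V → Set α), (∀ v, (c : ℕ∞) ≤ (L v).encard) →
    ∃ f : V → α, (∀ v, f v ∈ L v) ∧ Nonrepetitive G f

/-- The number of colours used for path-width at most `θ`. -/
def bound (θ : ℕ) : ℕ := 4 + 2 * (3 * (2 * θ + 3 + 1) * (2 * kap (2 * θ + 3) + 2))

theorem main_aux {V : Type} [Finite V] (T : SimpleGraph V) (hT : T.IsTree) (θ : ℕ)
    (hpw : HasPathDecompositionOfWidthLE T θ) : NonrepetitivelyChoosable T (bound θ) := by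
  classical
  have := Fintype.ofFinite V
  intro α L hL
  have hsub : ∀ v, ∃ S : Finset α, (S : Set α) ⊆ L v ∧ bound θ ≤ S.card := by
    intro v
    obtain ⟨t, ht1, ht2⟩ := Set.exists_subset_encard_eq (hL v)
    have hfin : t.Finite := Set.finite_of_encard_eq_coe ht2
    refine ⟨hfin.toFinset, by simpa using ht1, ?_⟩
    rw [hfin.encard_eq_coe_toFinset_card] at ht2
    have := ENat.natCast_inj.mp ht2
    omega
  choose S hS1 hS2 using hsub
  obtain ⟨m, B, hE, hint, hB⟩ := hpw
  -- from a walk to a sequence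
  have hwalk : ∀ (f : V → α), (∀ (t : ℕ) (q : ℕ → V), 0 < t →
      (∀ i j, i < 2 * t → j < 2 * t → q i = q j → i = j) →
      (∀ i, i + 1 < 2 * t → T.Adj (q i) (q (i + 1))) →
      (∀ i, i < t → f (q i) = f (q (i + t))) → False) → Nonrepetitive T f := by
    intro f hf x y p hp s hs heq
    have hlen : p.support.length = 2 * s.length := by
      have := congrArg List.length heq
      simp only [List.length_map, List.length_append] at this
      omega
    have hl := SimpleGraph.Walk.length_support p
    have hspos : 0 < s.length := List.length_pos_iff.mpr hs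
    refine hf s.length p.getVert hspos ?_ ?_ ?_
    · intro i j hi hj hij
      exact hp.getVert_injOn (by simp only [Set.mem_ofPred_eq]; omega)
        (by simp only [Set.mem_ofPred_eq]; omega) hij
    · intro i hi
      exact p.adj_getVert_succ (by omega)
    · intro i hi
      have hg : ∀ j (hj : j < 2 * s.length), f (p.getVert j) = (s ++ s)[j]'(by simp; omega) := by
        intro j hj
        have h1 : p.getVert j = p.support[j]'(by omega) := p.getVert_eq_support_getElem (by omega)
        rw [h1]
        simp only [← heq, List.getElem_map]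
      have h1 := hg i (by omega)
      have h2 := hg (i + s.length) (by omega)
      rw [List.getElem_append_left hi] at h1
      rw [List.getElem_append_right (by omega)] at h2
      simp only [Nat.add_sub_cancel] at h2
      rw [h1, h2]
  rcases subsingleton_or_nontrivial V with hsing | hnt
  · -- one vertex
    have hne : ∀ v, ∃ a, a ∈ L v := by
      intro v
      have hpos : 0 < (S v).card := by
        have := hS2 v
        unfold bound at this
        omega
      obtain ⟨a, ha⟩ := Finset.card_pos.mp hpos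
      exact ⟨a, hS1 v ha⟩
    choose f hf using hne
    refine ⟨f, hf, hwalk f ?_⟩
    intro t q ht hinj _ _
    have := hinj 0 1 (by omega) (by omega) (Subsingleton.elim _ _)
    omega
  · obtain ⟨r⟩ := hT.connected.nonempty
    have hdp : ∀ v, T.dist r v ≠ 0 → T.dist r (tpar T r v) + 1 = T.dist r v :=
      fun v hv => (tpar_spec hT r v hv).2
    have hedge : ∀ v, T.dist r v ≠ 0 → ∃ i, v ∈ B i ∧ tpar T r v ∈ B i :=
      fun v hv => hE _ _ (tpar_spec hT r v hv).1
    have hcov : ∀ v, ∃ i, v ∈ B i := by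
      intro v
      obtain ⟨w, hw⟩ := exists_ne v
      have h0 : T.dist w v ≠ 0 := by
        intro h
        have := (hT.connected w v).dist_eq_zero_iff.mp h
        exact hw this
      obtain ⟨u, hu, _⟩ := closer_exists hT w v h0
      obtain ⟨i, hi, _⟩ := hE _ _ hu
      exact ⟨i, hi⟩
    have hRT := rank_RT (par := tpar T r) (dep := fun v => T.dist r v) B hint hedge hdp hcov
    have hR : ∀ v, rank (tpar T r) (fun v => T.dist r v) B v ≤ 2 * θ + 3 := by
      intro v
      have := gg_le (par := tpar T r) (dep := fun v => T.dist r v) B θ hB v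
      unfold rank
      split_ifs <;> omega
    obtain ⟨φ, hφ⟩ := exists_good hRT (2 * θ + 3) (Finset.univ.sup (fun v => T.dist r v)) hR
      (fun v => Finset.le_sup (f := fun v => T.dist r v) (Finset.mem_univ v)) S
      (fun v => hS2 v)
    refine ⟨φ, fun v => hS1 v (hφ v).1, hwalk φ ?_⟩
    intro t q ht hinj hadj hrep
    refine nonrep_seq hRT φ (fun l => ⟨_, kap_ge _, (hφ l).2⟩) t ht q hinj ?_ hrep
    intro i hi
    exact tpar_adj hT r _ _ (hadj i hi)

lemma width_mono {V : Type} {G : SimpleGraph V} {θ θ' : ℕ} (h : θ ≤ θ')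
    (hG : HasPathDecompositionOfWidthLE G θ) : HasPathDecompositionOfWidthLE G θ' := by
  obtain ⟨m, B, h1, h2, h3⟩ := hG
  exact ⟨m, B, h1, h2, fun i => (h3 i).trans (by omega)⟩

lemma width_of_pathWidth {V : Type} [Finite V] (G : SimpleGraph V) :
    HasPathDecompositionOfWidthLE G (pathWidth G) := by
  classical
  have := Fintype.ofFinite V
  have hne : {θ | HasPathDecompositionOfWidthLE G θ}.Nonempty := by
    refine ⟨Fintype.card V, 1, fun _ => Finset.univ, ?_, ?_, ?_⟩
    · intro u v _; exact ⟨0, Finset.mem_univ _, Finset.mem_univ _⟩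
    · intro v i j k _ _ _ _; exact Finset.mem_univ _
    · intro i; rw [Finset.card_univ]; omega
  exact Nat.sInf_mem hne

/-- Sanity check: for finite graphs `pathWidth` is attained. -/
lemma pathWidth_le_iff {V : Type} [Finite V] (G : SimpleGraph V) (θ : ℕ) :
    pathWidth G ≤ θ ↔ HasPathDecompositionOfWidthLE G θ :=
  ⟨fun h => width_mono h (width_of_pathWidth G), fun h => Nat.sInf_le h⟩

/-- For every `θ` there is a constant `c` such that every finite tree of path-width at most `θ` is
nonrepetitively `c`-choosable. -/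
theorem result : ∀ θ : ℕ, ∃ c : ℕ, ∀ (V : Type) [Finite V] (T : SimpleGraph V),
    T.IsTree → pathWidth T ≤ θ → NonrepetitivelyChoosable T c := by
  intro θ
  refine ⟨bound θ, ?_⟩
  intro V _ T hT hpw
  exact main_aux T hT θ (width_mono hpw (width_of_pathWidth T))

end Pool.Agent.Results.MP_924390_co.BoundedPathwidthTrees
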